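import Pool.Agent.Lib.MP_3ecc11_lc.Trav

set_option autoImplicit false
set_option linter.unusedVariables false

namespace Pool.Agent.Lib.MP_3ecc11_lc

open BT

def relab {α β : Type} (f : α → β) : BT α → BT β
  | nil => nil
  | node l a r => node (relab f l) (f a) (relab f r)

theorem inord_relab {α β : Type} (f : α → β) : ∀ t : BT α, inord (relab f t) = (inord t).map f
  | nil => rfl
  | node l a r => by simp [relab, inord, inord_relab f l, inord_relab f r]

theorem preord_relab {α β : Type} (f : α → β) : ∀ t : BT α, preord (relab f t) = (preord t).map f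
  | nil => rfl
  | node l a r => by simp [relab, preord, preord_relab f l, preord_relab f r]

theorem mem_preord {α : Type} (x : α) : ∀ t : BT α, x ∈ preord t ↔ x ∈ inord t
  | nil => Iff.rfl
  | node l a r => by
    simp only [preord, inord, List.mem_cons, List.mem_append, mem_preord x l, mem_preord x r]
    tauto

theorem length_preord {α : Type} : ∀ t : BT α, (preord t).length = (inord t).length
  | nil => rfl
  | node l a r => by
    simp only [preord, inord, List.length_cons, List.length_append, length_preord l,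
      length_preord r]
    omega

theorem Dbl.relab {α β : Type} (f : α → β) {x : α} {S S' : BT α} (h : Dbl x S S') :
    Dbl (f x) (relab f S) (relab f S') := by
  induction h with
  | zigzigL A B C D a b => exact Dbl.zigzigL _ _ _ _ _ _
  | zigzigR A B C D a b => exact Dbl.zigzigR _ _ _ _ _ _
  | zigzagL A B C D a b => exact Dbl.zigzagL _ _ _ _ _ _
  | zigzagR A B C D a b => exact Dbl.zigzagR _ _ _ _ _ _
  | left l l' r a _ ih => exact Dbl.left _ _ _ _ ih
  | right l r r' a _ ih => exact Dbl.right _ _ _ _ ih

theorem Splay.relab {α β : Type} (f : α → β) {x : α} {S S' : BT α} (h : Splay x S S') :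
    Splay (f x) (relab f S) (relab f S') := by
  induction h with
  | done A B => exact Splay.done _ _
  | zigL A B C a => exact Splay.zigL _ _ _ _
  | zigR A B C a => exact Splay.zigR _ _ _ _
  | step S S₁ S' d _ ih => exact Splay.step _ _ _ (d.relab f) ih

theorem Dbl.inord_eq {α : Type} {x : α} {S S' : BT α} (h : Dbl x S S') : inord S' = inord S := by
  induction h with
  | left l l' r a _ ih => simp [inord, ih]
  | right l r r' a _ ih => simp [inord, ih]
  | _ => simp [inord]

theorem Splay.inord_eq {α : Type} {x : α} {S S' : BT α} (h : Splay x S S') :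
    inord S' = inord S := by
  induction h with
  | step S S₁ S' d _ ih => rw [ih, d.inord_eq]
  | _ => simp [inord]

theorem depth_relab {α : Type} [LinearOrder α] (f : α → ℤ) (x : α) : ∀ t : BT α,
    (∀ a ∈ inord t, (f x = f a ↔ x = a) ∧ (f x < f a ↔ x < a)) →
    depth (relab f t) (f x) = depth t x
  | nil, _ => rfl
  | node l a r, h => by
    have h0 := h a (by simp [inord])
    have h1 := depth_relab f x l (fun b hb => h b (by simp [inord, hb]))
    have h2 := depth_relab f x r (fun b hb => h b (by simp [inord, hb]))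
    simp only [relab, depth, h0.1, h0.2, h1, h2]

theorem full_of : ∀ (t : BT ℤ) (lo hi : ℤ), lo < hi → (inord t).Pairwise (· < ·) →
    (∀ v, v ∈ inord t ↔ lo < v ∧ v < hi) → Full lo hi t
  | nil, lo, hi, h1, _, h3 => by
    have := h3 (lo + 1)
    simp only [inord, List.not_mem_nil, false_iff] at this
    unfold Full
    omega
  | node l a r, lo, hi, h1, h2, h3 => by
    simp only [inord, List.pairwise_append, List.pairwise_cons, List.mem_append, List.mem_cons]
      at h2 h3
    obtain ⟨p1, ⟨p2, p3⟩, p4⟩ := h2
    have ha := (h3 a).1 (Or.inr (Or.inl rfl))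
    refine ⟨full_of l lo a ha.1 p1 (fun v => ⟨fun hv => ?_, fun hv => ?_⟩),
      full_of r a hi ha.2 p3 (fun v => ⟨fun hv => ?_, fun hv => ?_⟩)⟩
    · exact ⟨((h3 v).1 (Or.inl hv)).1, p4 v hv a (Or.inl rfl)⟩
    · rcases (h3 v).2 ⟨hv.1, by omega⟩ with g | g | g
      · exact g
      · omega
      · have := p2 v g; omega
    · exact ⟨p2 v hv, ((h3 v).1 (Or.inr (Or.inr hv))).2⟩
    · rcases (h3 v).2 ⟨by omega, hv.2⟩ with g | g | g
      · have := p4 v g a (Or.inl rfl); omega
      · omega
      · exact g

theorem exists_rank {α : Type} [LinearOrder α] (K : List α) (hK : K.Pairwise (· < ·)) :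
    ∃ f : α → ℤ, (∀ a ∈ K, ∀ b ∈ K, f a < f b ↔ a < b) ∧
      ∀ v, v ∈ K.map f ↔ 0 < v ∧ v < (K.length : ℤ) + 1 := by
  have hnd : K.Nodup := hK.imp (fun h => ne_of_lt h)
  rw [List.pairwise_iff_getElem] at hK
  have key : ∀ a ∈ K, ∀ b ∈ K, K.idxOf a < K.idxOf b → a < b := by
    intro a ha b hb h
    have := hK _ _ (List.idxOf_lt_length_of_mem ha) (List.idxOf_lt_length_of_mem hb) h
    simpa using this
  refine ⟨fun a => (K.idxOf a : ℤ) + 1, fun a ha b hb => ⟨fun h => key a ha b hb (by dsimp only at h; omega),
    fun h => ?_⟩, fun v => ⟨fun h => ?_, fun h => ?_⟩⟩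
  · by_contra hc
    rcases Nat.lt_or_ge (K.idxOf b) (K.idxOf a) with g | g
    · exact absurd (key b hb a ha g) (not_lt.2 h.le)
    · have e : K.idxOf a = K.idxOf b := by dsimp only at hc; omega
      exact absurd ((List.idxOf_inj ha).1 e) h.ne
  · obtain ⟨a, ha, rfl⟩ := List.mem_map.1 h
    have := List.idxOf_lt_length_of_mem ha
    omega
  · have hl : (v - 1).toNat < K.length := by omega
    refine List.mem_map.2 ⟨K[(v - 1).toNat], List.getElem_mem hl, ?_⟩
    rw [hnd.idxOf_getElem]
    omega

theorem run_of {α : Type} [LinearOrder α] (K : List α) (f : α → ℤ)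
    (hf : ∀ a ∈ K, ∀ b ∈ K, f a < f b ↔ a < b) : ∀ (xs : List α) (S : ℕ → BT α),
    (∀ x ∈ xs, x ∈ K) → inord (S 0) = K →
    (∀ i : Fin xs.length, Splay xs[i] (S i) (S (i + 1))) →
    Run (xs.map f) (relab f (S 0)) (relab f (S xs.length))
      (∑ i : Fin xs.length, (depth (S i) xs[i] + 1))
  | [], S, _, _, _ => Run.nil _
  | x :: xs, S, h1, h2, h3 => by
    have g0 : Splay x (S 0) (S 1) := h3 ⟨0, by simp⟩
    have ih := run_of K f hf xs (fun i => S (i + 1)) (fun y hy => h1 y (List.mem_cons_of_mem _ hy))
      (by rw [← h2]; exact g0.inord_eq) (fun i => h3 i.succ)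
    have hx := h1 x List.mem_cons_self
    have d : depth (relab f (S 0)) (f x) = depth (S 0) x := by
      apply depth_relab
      intro a ha
      rw [h2] at ha
      refine ⟨⟨fun e => ?_, fun e => by rw [e]⟩, hf x hx a ha⟩
      rcases lt_trichotomy x a with c | c | c
      · have := (hf x hx a ha).2 c; omega
      · exact c
      · have := (hf a ha x hx).2 c; omega
    have := Run.cons (f x) _ _ _ _ _ (g0.relab f) ih
    rw [d] at this
    have e : (∑ i : Fin (x :: xs).length, (depth (S i) (x :: xs)[i] + 1))
        = depth (S 0) x + 1 + ∑ i : Fin xs.length, (depth (S (i + 1)) xs[i] + 1) :=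
      Fin.sum_univ_succ (n := xs.length) _
    rw [e]
    exact this

theorem main {α : Type} [LinearOrder α] (T T' : BT α) (S : ℕ → BT α)
    (hT : (inord T).Pairwise (· < ·)) (hT' : inord T' = inord T) (h0 : S 0 = T')
    (hS : ∀ i : Fin (preord T).length, Splay (preord T)[i] (S i) (S (i + 1))) :
    ∑ i : Fin (preord T).length, (depth (S i) (preord T)[i] + 1)
      ≤ 14036 * (preord T).length * (logStar (preord T).length + 1) := by
  obtain ⟨f, hf, hm⟩ := exists_rank (inord T) hT
  have hr := run_of (inord T) f hf (preord T) S (fun x hx => (mem_preord x T).1 hx)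
    (by rw [h0, hT']) hS
  have hp : ((inord T).map f).Pairwise (· < ·) := by
    rw [List.pairwise_map]
    exact hT.imp_of_mem (fun ha hb h => (hf _ ha _ hb).2 h)
  rw [← length_preord] at hm
  have f1 : Full 0 ((preord T).length + 1) (relab f T) :=
    full_of _ _ _ (by omega) (by rw [inord_relab]; exact hp) (by rw [inord_relab]; exact hm)
  have f2 : Full 0 ((preord T).length + 1) (relab f (S 0)) :=
    full_of _ _ _ (by omega) (by rw [inord_relab, h0, hT']; exact hp)
      (by rw [inord_relab, h0, hT']; exact hm)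
  rw [← preord_relab] at hr
  exact run_le _ (relab f T) _ _ _ f1 f2 (by rw [preord_relab, List.length_map]) hr

end Pool.Agent.Lib.MP_3ecc11_lc
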