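import Pool.Agent.Lib.MP_3ecc11_lc.Pot

set_option autoImplicit false

namespace Pool.Agent.Lib.MP_3ecc11_lc

theorem LV.sub (V : LV) {a u v b : ℤ} (h1 : a ≤ u) (h2 : u ≤ v) (h3 : v ≤ b) :
    V.lev u v ≤ V.lev a b := by
  have e1 := V.betw a u b h1 (by omega)
  have e2 := V.betw u v b h2 h3
  omega

theorem LV.ultra (V : LV) (g u v : ℤ) : V.lev u v ≤ max (V.lev g u) (V.lev g v) := by
  have s1 := V.sym g u
  have s2 := V.sym g v
  have s3 := V.sym u v
  have b1 := V.betw g u v
  have b2 := V.betw g v u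
  have b3 := V.betw u g v
  have b4 := V.betw u v g
  have b5 := V.betw v g u
  have b6 := V.betw v u g
  omega

theorem LV.blkL (V : LV) {a g v : ℤ} (h : a < v) (h1 : V.lev g v < V.lev a v) :
    a < g ∧ V.lev a g = V.lev a v := by
  have s2 := V.sym g v
  have b1 := V.betw g a v
  have b2 := V.betw a g v
  have b3 := V.betw a v g
  omega

theorem LV.blkR (V : LV) {b g v : ℤ} (h : v < b) (h1 : V.lev g v < V.lev v b) :
    g < b ∧ V.lev g b = V.lev v b := by
  have s2 := V.sym g v
  have b1 := V.betw v b g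
  have b2 := V.betw v g b
  have b3 := V.betw g v b
  omega

/-- laminarity of the nearest-ancestor functions on the piece `(L, R)` -/
structure Lam (L R : ℤ) (p q : ℤ → ℤ) : Prop where
  pl : ∀ v, L < v → v < R → L ≤ p v ∧ p v < v ∧ v < q v ∧ q v ≤ R
  l1 : ∀ v w, L < v → v < R → p v < w → w < v → p v ≤ p w ∧ q w ≤ v
  l2 : ∀ v w, L < v → v < R → v < w → w < q v → v ≤ p w ∧ q w ≤ q v
  l3 : ∀ v, L < v → v < R → q v < R → p (q v) ≤ p v
  l4 : ∀ v, L < v → v < R → L < p v → q v ≤ q (p v)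

/-- the context of one split -/
structure Cx (V : LV) (L R x : ℤ) (p q : ℤ → ℤ) (Z : ℕ) : Prop where
  hL : L < x
  hR : x < R
  lam : Lam L R p q
  pos : ∀ u v, L ≤ u → u < v → v ≤ R → 1 ≤ V.lev u v
  zlt : ∀ u v, L ≤ u → u ≤ v → v ≤ R → zn (V.lev u v) < Z

section
variable {V : LV} {L R x : ℤ} {p q : ℤ → ℤ} {Z : ℕ}

theorem ww_le (V : LV) {L R x v : ℤ} (h1 : L ≤ x) (h2 : x ≤ v) : ww V x R v ≤ ww V L R v := by
  have := V.sub h1 h2 (le_refl v)
  unfold ww
  omega

theorem Cx.ww_pos (C : Cx V L R x p q Z) {v : ℤ} (h1 : x < v) (h2 : v < R) : 1 ≤ ww V x R v := by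
  have a1 := C.pos x v C.hL.le h1 h2.le
  have a2 := C.pos v R (by have := C.hL; omega) h2 le_rfl
  unfold ww
  omega

theorem Cx.ww_zn (C : Cx V L R x p q Z) {v : ℤ} (h1 : x < v) (h2 : v < R) :
    zn (ww V x R v) < Z :=
  lt_of_le_of_lt (zn_mono (min_le_left _ _)) (C.zlt x v C.hL.le h1.le h2.le)

theorem Cx.key (C : Cx V L R x p q Z) {v : ℤ} (h1 : x < v) (h2 : v < R) (s : ℕ)
    (h3 : ww V L R x ≤ s) (h4 : s < ww V x R v) : ww V L R v = ww V x R v ∧ V.lev L x ≤ s := by
  have a1 := V.betw L x v C.hL.le h1.le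
  have a2 := V.betw x v R h1.le h2.le
  unfold ww at *
  omega

def PN (V : LV) (L R x : ℤ) (p q : ℤ → ℤ) (v : ℤ) : Prop :=
  ww V x R v < ww V L R v ∧ lo (ww V x R v) < V.lev (max (p v) x) v ∧
    lo (ww V x R v) < V.lev v (q v)

def PA (V : LV) (L R x : ℤ) (p q : ℤ → ℤ) (v : ℤ) : Prop :=
  lo (V.lev v (q v)) < ww V L R x ∧ ww V x R v ≤ V.lev v (q v) ∧
    lo (V.lev v (q v)) < ww V x R v ∧ V.lev x (max (p v) x) ≤ lo (V.lev v (q v))

def PB (V : LV) (L R x : ℤ) (p q : ℤ → ℤ) (v : ℤ) : Prop :=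
  lo (V.lev (p v) v) < ww V L R x ∧ ww V x R v ≤ V.lev (p v) v ∧
    lo (V.lev (p v) v) < ww V x R v ∧ V.lev (q v) R ≤ lo (V.lev (p v) v) ∧ x < p v

def PP (V : LV) (R x : ℤ) (p q : ℤ → ℤ) (v : ℤ) : Prop :=
  p v ≤ x ∧ ww V x R v ≤ lo (V.lev v (q v))

open Classical in
theorem Cx.cntN (C : Cx V L R x p q Z) :
    ∑ c ∈ Finset.Ioo x R ×ˢ Finset.range Z, bt V x R c
      + 32 * ((Finset.Ioo x R).filter (PN V L R x p q)).card
    ≤ ∑ c ∈ Finset.Ioo x R ×ˢ Finset.range Z, bt V L R c := by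
  have hL := C.hL
  have h1 := sum_drop (Finset.Ioo x R ×ˢ Finset.range Z)
    ((Finset.Ioo x R ×ˢ Finset.range Z).filter (fun c => bt V x R c + 32 ≤ bt V L R c))
    (bt V x R) (bt V L R) 32 (Finset.filter_subset _ _) (by
      intro c hc
      have hc1 := Finset.mem_Ioo.1 (Finset.mem_product.1 hc).1
      have := ww_le V (R := R) hL.le hc1.1.le
      unfold bt
      split_ifs with g1 g2 g2
      · omega
      · exact absurd ⟨g1.1, by omega⟩ g2
      · omega
      · omega) (fun c hc => (Finset.mem_filter.1 hc).2)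
  have h2 := card_le_of_lt_ne ((Finset.Ioo x R).filter (PN V L R x p q))
    ((Finset.Ioo x R ×ˢ Finset.range Z).filter (fun c => bt V x R c + 32 ≤ bt V L R c))
    (fun v => (choose (V.rep (zn (ww V x R v)) v), zn (ww V x R v))) (by
      intro v hv
      obtain ⟨hv1, n1, n2, n3⟩ := Finset.mem_filter.1 hv
      obtain ⟨v1, v2⟩ := Finset.mem_Ioo.1 hv1
      obtain ⟨g1, g2⟩ := choose_spec (V.rep (zn (ww V x R v)) v)
      set g := choose (V.rep (zn (ww V x R v)) v)
      have a1 := lo_lt (C.ww_pos v1 v2)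
      have a2 := le_hi (ww V x R v)
      have a3 : V.lev x v ≤ V.lev L v := V.sub hL.le v1.le le_rfl
      unfold lo at a1
      unfold hi at a2
      have w1 : ww V x R v ≤ V.lev x v := min_le_left _ _
      have w2 : ww V x R v ≤ V.lev v R := min_le_right _ _
      have b1 := V.blkL (g := g) v1 (by omega)
      have b2 := V.blkR (g := g) v2 (by omega)
      have b3 := V.blkL (a := L) (g := g) (v := v) (by omega) (by omega)
      have e1 : ww V x R g = ww V x R v := by unfold ww; rw [b1.2, b2.2]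
      have e2 : ww V L R g = ww V L R v := by unfold ww; rw [b3.2, b2.2]
      refine Finset.mem_filter.2 ⟨Finset.mem_product.2 ⟨Finset.mem_Ioo.2 ⟨b1.1, b2.1⟩,
        Finset.mem_range.2 (C.ww_zn v1 v2)⟩, ?_⟩
      unfold bt
      simp only [e1, e2]
      rw [if_pos ⟨g1, a1⟩, if_pos ⟨g1, by omega⟩]
      omega) (by
      intro u hu v hv huv e
      obtain ⟨hu1, m1, m2, m3⟩ := Finset.mem_filter.1 hu
      obtain ⟨u1, u2⟩ := Finset.mem_Ioo.1 hu1
      obtain ⟨hv1, n1, n2, n3⟩ := Finset.mem_filter.1 hv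
      obtain ⟨v1, v2⟩ := Finset.mem_Ioo.1 hv1
      obtain ⟨e1, e2⟩ := Prod.mk.inj e
      have g2 := (choose_spec (V.rep (zn (ww V x R v)) v)).2
      have g1 := (choose_spec (V.rep (zn (ww V x R u)) u)).2
      rw [e1] at g1
      have ul := V.ultra (choose (V.rep (zn (ww V x R v)) v)) u v
      unfold lo at m2 m3 n2 n3
      rw [e2] at g1 m2 m3
      have p1 := C.lam.pl u (by omega) u2
      have p2 := C.lam.pl v (by omega) v2
      have s1 : q u ≤ v → V.lev u (q u) ≤ V.lev u v := fun h => V.sub le_rfl (by omega) h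
      have s2 : u ≤ max (p v) x → V.lev (max (p v) x) v ≤ V.lev u v :=
        fun h => V.sub h (by omega) le_rfl
      have l := C.lam.l1 v u (by omega) v2
      omega)
  omega

open Classical in
theorem Cx.cntA (C : Cx V L R x p q Z) :
    ((Finset.Ioo x R).filter (PA V L R x p q)).card ≤ 2 * (hi (ww V L R x) + 1) := by
  have hL := C.hL
  have h2 := card_le_of_lt_ne ((Finset.Ioo x R).filter (PA V L R x p q))
    (Finset.range (hi (ww V L R x) + 1) ×ˢ (Finset.univ : Finset Bool))
    (fun v => (V.lev v (q v), decide (V.lev x v ≤ V.lev v (q v)))) (by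
      intro v hv
      obtain ⟨hv1, n1, n2, n3, n4⟩ := Finset.mem_filter.1 hv
      have a1 := hi_mono (zn_ge n1)
      have a2 := le_hi (V.lev v (q v))
      exact Finset.mem_product.2 ⟨Finset.mem_range.2 (by dsimp only; omega), Finset.mem_univ _⟩) (by
      intro u hu v hv huv e
      obtain ⟨hu1, m1, m2, m3, m4⟩ := Finset.mem_filter.1 hu
      obtain ⟨u1, u2⟩ := Finset.mem_Ioo.1 hu1
      obtain ⟨hv1, n1, n2, n3, n4⟩ := Finset.mem_filter.1 hv
      obtain ⟨v1, v2⟩ := Finset.mem_Ioo.1 hv1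
      obtain ⟨e1, e2⟩ := Prod.mk.inj e
      rw [decide_eq_decide] at e2
      rw [e1] at m1 m2 m3 m4 e2
      have p1 := C.lam.pl u (by omega) u2
      have p2 := C.lam.pl v (by omega) v2
      have s2 : u ≤ max (p v) x → V.lev x u ≤ V.lev x (max (p v) x) :=
        fun h => V.sub le_rfl u1.le h
      have l := C.lam.l1 v u (by omega) v2
      unfold ww at m2 m3 n2 n3
      have hq : q u ≤ v := by omega
      have k1 := C.pos v (q v) (by omega) (by omega) (by omega)
      have md := V.mid u (q u) v (q v) _ (by omega) hq (by omega) e1 rfl k1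
      have s3 : V.lev u (q v) ≤ V.lev x (q v) := V.sub u1.le (by omega) le_rfl
      have s4 : V.lev u (q v) ≤ V.lev u R := V.sub le_rfl (by omega) (by omega)
      have b := V.betw x v (q v) v1.le (by omega)
      omega)
  rw [Finset.card_product, Finset.card_range, Finset.card_univ, Fintype.card_bool] at h2
  omega

open Classical in
theorem Cx.cntB (C : Cx V L R x p q Z) :
    ((Finset.Ioo x R).filter (PB V L R x p q)).card ≤ 2 * (hi (ww V L R x) + 1) := by
  have hL := C.hL
  have h2 := card_le_of_lt_ne ((Finset.Ioo x R).filter (PB V L R x p q))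
    (Finset.range (hi (ww V L R x) + 1) ×ˢ (Finset.univ : Finset Bool))
    (fun v => (V.lev (p v) v, decide (V.lev x v ≤ V.lev (p v) v))) (by
      intro v hv
      obtain ⟨hv1, n1, n2, n3, n4⟩ := Finset.mem_filter.1 hv
      have a1 := hi_mono (zn_ge n1)
      have a2 := le_hi (V.lev (p v) v)
      exact Finset.mem_product.2 ⟨Finset.mem_range.2 (by dsimp only; omega), Finset.mem_univ _⟩) (by
      intro u hu v hv huv e
      obtain ⟨hu1, m1, m2, m3, m4, m5⟩ := Finset.mem_filter.1 hu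
      obtain ⟨u1, u2⟩ := Finset.mem_Ioo.1 hu1
      obtain ⟨hv1, n1, n2, n3, n4, n5⟩ := Finset.mem_filter.1 hv
      obtain ⟨v1, v2⟩ := Finset.mem_Ioo.1 hv1
      obtain ⟨e1, e2⟩ := Prod.mk.inj e
      rw [decide_eq_decide] at e2
      rw [e1] at m1 m2 m3 m4 e2
      have p1 := C.lam.pl u (by omega) u2
      have p2 := C.lam.pl v (by omega) v2
      have s2 : q u ≤ v → V.lev v R ≤ V.lev (q u) R :=
        fun h => V.sub h v2.le le_rfl
      have l := C.lam.l2 u v (by omega) u2
      unfold ww at m2 m3 n2 n3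
      have hq : u ≤ p v := by omega
      have k1 := C.pos (p v) v (by omega) (by omega) (by omega)
      have md := V.mid (p u) u (p v) v _ (by omega) hq (by omega) e1 rfl k1
      have s3 : V.lev (p u) v ≤ V.lev x v := V.sub (by omega) (by omega) le_rfl
      have s4 : V.lev (p u) v ≤ V.lev (p u) R := V.sub le_rfl (by omega) (by omega)
      have b := V.betw (p u) u R (by omega) (by omega)
      omega)
  rw [Finset.card_product, Finset.card_range, Finset.card_univ, Fintype.card_bool] at h2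
  omega

open Classical in
theorem Cx.cntP (C : Cx V L R x p q Z) :
    ((Finset.Ioo x R).filter (PP V R x p q)).card ≤ Z := by
  have hL := C.hL
  have h2 := card_le_of_lt_ne ((Finset.Ioo x R).filter (PP V R x p q))
    (Finset.range Z) (fun v => zn (V.lev v (q v))) (by
      intro v hv
      obtain ⟨v1, v2⟩ := Finset.mem_Ioo.1 (Finset.mem_filter.1 hv).1
      have p2 := C.lam.pl v (by omega) v2
      exact Finset.mem_range.2 (C.zlt _ _ (by omega) (by omega) (by omega))) (by
      intro u hu v hv huv e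
      obtain ⟨hu1, m1, m2⟩ := Finset.mem_filter.1 hu
      obtain ⟨u1, u2⟩ := Finset.mem_Ioo.1 hu1
      obtain ⟨hv1, n1, n2⟩ := Finset.mem_filter.1 hv
      obtain ⟨v1, v2⟩ := Finset.mem_Ioo.1 hv1
      have p1 := C.lam.pl u (by omega) u2
      have p2 := C.lam.pl v (by omega) v2
      have l := C.lam.l1 v u (by omega) v2
      have k1 := lo_lt (C.pos v (q v) (by omega) (by omega) (by omega))
      have k2 := lo_lt (C.pos u (q u) (by omega) (by omega) (by omega))
      have s3 : V.lev u (q u) ≤ V.lev x v := V.sub (by omega) (by omega) (by omega)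
      have s4 : V.lev v (q v) ≤ V.lev v R := V.sub le_rfl (by omega) (by omega)
      have e' : lo (V.lev u (q u)) = lo (V.lev v (q v)) := by unfold lo; rw [e]
      unfold ww at n2
      omega)
  simpa using h2

end

end Pool.Agent.Lib.MP_3ecc11_lc
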