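import Mathlib

set_option autoImplicit false

namespace Pool.Agent.Lib.MP_3ecc11_lc

/-- Binary trees whose nodes carry keys. -/
inductive BT (α : Type) : Type
  | nil : BT α
  | node : BT α → α → BT α → BT α

open BT

/-- The keys in symmetric order. -/
def inord {α : Type} : BT α → List α
  | nil => []
  | node l a r => inord l ++ a :: inord r

/-- The keys in preorder. -/
def preord {α : Type} : BT α → List α
  | nil => []
  | node l a r => a :: (preord l ++ preord r)

/-- The depth of a key, found by binary search from the root (root at depth 0). -/
def depth {α : Type} [LinearOrder α] : BT α → α → ℕ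
  | nil, _ => 0
  | node l a r, x => if x = a then 0 else if x < a then depth l x + 1 else depth r x + 1

/-- One zig-zig or zig-zag step at the node with key `x`, anywhere in the tree. -/
inductive Dbl {α : Type} (x : α) : BT α → BT α → Prop
  | zigzigL (A B C D : BT α) (a b : α) :
      Dbl x (node (node (node A x B) b C) a D) (node A x (node B b (node C a D)))
  | zigzigR (A B C D : BT α) (a b : α) :
      Dbl x (node A a (node B b (node C x D))) (node (node (node A a B) b C) x D)
  | zigzagL (A B C D : BT α) (a b : α) :
      Dbl x (node (node A b (node B x C)) a D) (node (node A b B) x (node C a D))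
  | zigzagR (A B C D : BT α) (a b : α) :
      Dbl x (node A a (node (node B x C) b D)) (node (node A a B) x (node C b D))
  | left (l l' r : BT α) (a : α) : Dbl x l l' → Dbl x (node l a r) (node l' a r)
  | right (l r r' : BT α) (a : α) : Dbl x r r' → Dbl x (node l a r) (node l a r')

/-- `Splay x S S'`: the tree `S'` is obtained from `S` by splaying the key `x`: zig-zig and
zig-zag steps while `x` has a grandparent, then a zig step if its parent is the root. -/
inductive Splay {α : Type} (x : α) : BT α → BT α → Prop
  | done (A B : BT α) : Splay x (node A x B) (node A x B)
  | zigL (A B C : BT α) (a : α) : Splay x (node (node A x B) a C) (node A x (node B a C))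
  | zigR (A B C : BT α) (a : α) : Splay x (node A a (node B x C)) (node (node A a B) x C)
  | step (S S₁ S' : BT α) : Dbl x S S₁ → Splay x S₁ S' → Splay x S S'

/-- The iterated logarithm: the number of times `⌊log₂⌋` must be applied to reach a
value at most 1. -/
def logStar (n : ℕ) : ℕ :=
  if h : n ≤ 1 then 0 else logStar (Nat.log 2 n) + 1
termination_by n
decreasing_by exact Nat.log_lt_self 2 (by omega)

end Pool.Agent.Lib.MP_3ecc11_lc
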