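import Pool.Agent.Lib.MP_3ecc11_lc.Tree

set_option autoImplicit false
set_option linter.unusedVariables false

namespace Pool.Agent.Lib.MP_3ecc11_lc

open BT

/-- effect of a whole splay on the ancestor functions -/
structure Sp (N x : ℤ) (p q p' q' : ℤ → ℤ) (WR WL UR : Finset ℤ) (m : ℤ → ℤ) (f : ℤ) : Prop where
  wr : ∀ y ∈ WR, x < y ∧ y < N ∧ p y < x ∧ q y < N ∧ q y ∉ WR ∧ p' y = x ∧ q' y = q (q y) ∧
    p' (q y) = y ∧ q' (q y) = q (q y)
  orr : ∀ v, x < v → v < N → v ∉ WR → (∀ y ∈ WR, q y ≠ v) →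
    p' v = max (p v) x ∧ q' v = q v ∧ (p v < x → v ∈ UR ∨ v = f)
  wl : ∀ y ∈ WL, y < x ∧ 0 < y ∧ x < q y ∧ 0 < p y ∧ p y ∉ WL ∧ q' y = x ∧ p' y = p (p y) ∧
    q' (p y) = y ∧ p' (p y) = p (p y)
  ol : ∀ v, v < x → 0 < v → v ∉ WL → (∀ y ∈ WL, p y ≠ v) →
    q' v = min (q v) x ∧ p' v = p v ∧ (x < q v → (∃ r ∈ UR, m r = v) ∨ v = f)
  ur : ∀ r ∈ UR, x < r ∧ r < N ∧ 0 < m r ∧ m r < x ∧ p r < x ∧ x < q (m r) ∧
    ((q (m r) = r ∧ p r = p (m r)) ∨ (p r = m r ∧ q (m r) = q r))
  inj : ∀ r ∈ UR, ∀ s ∈ UR, m r = m s → r = s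

section
variable {N x : ℤ} {p q p1 q1 p' q' : ℤ → ℤ} {WR WL UR : Finset ℤ} {m : ℤ → ℤ} {f : ℤ}

theorem Sp.base (h' : Lam 0 N p' q') (x1 : 0 < x) (x2 : x < N) (e1 : p' x = 0) (e2 : q' x = N)
    (s : ∀ v, 0 < v → v < N → v ≠ x → v ≠ f → p' v = p v ∧ q' v = q v)
    (t1 : x < f → p' f = x ∧ p f ≤ x ∧ q' f = q f) (t2 : f < x → q' f = x ∧ x ≤ q f ∧ p' f = p f) :
    Sp N x p q p' q' ∅ ∅ ∅ id f := by
  refine ⟨by simp, fun v v1 v2 _ _ => ?_, by simp, fun v v1 v2 _ _ => ?_, by simp, by simp⟩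
  · have l := h'.l2 x v x1 x2 v1 (by omega)
    by_cases c : v = f
    · subst c
      have := t1 v1
      exact ⟨by omega, by omega, fun _ => Or.inr rfl⟩
    · have := s v (by omega) v2 (by omega) c
      exact ⟨by omega, by omega, fun _ => by omega⟩
  · have l := h'.l1 x v x1 x2 (by omega) v1
    by_cases c : v = f
    · subst c
      have := t2 v1
      exact ⟨by omega, by omega, fun _ => Or.inr rfl⟩
    · have := s v v2 (by omega) (by omega) c
      exact ⟨by omega, by omega, fun _ => by omega⟩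

theorem Sp.step (h : Lam 0 N p q) (h1 : Lam 0 N p1 q1) (x1 : 0 < x) (x2 : x < N)
    (st : St x 0 N p q p1 q1) (S : Sp N x p1 q1 p' q' WR WL UR m f) :
    ∃ WR' WL' UR' m', Sp N x p q p' q' WR' WL' UR' m' f := by
  obtain ⟨y, z, y1, y2, z1, z2, s, t⟩ := st
  have py := h.pl y y1 y2
  have pz := h.pl z z1 z2
  have px := h.pl x x1 x2
  have px1 := h1.pl x x1 x2
  have ins : p1 x < y ∧ y < q1 x ∧ p1 x < z ∧ z < q1 x := by omega
  have same : ∀ v, 0 < v → v < N → (q1 x ≤ v ∨ v ≤ p1 x) → p1 v = p v ∧ q1 v = q v :=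
    fun v v1 v2 c => s v v1 v2 (by omega) (by omega) (by omega)
  have outR : ∀ v, x < v → v < N → p1 v < x → q1 x ≤ v :=
    fun v v1 v2 c => (h1.l1 v x (by omega) v2 c v1).2
  have outL : ∀ v, v < x → 0 < v → x < q1 v → v ≤ p1 x :=
    fun v v1 v2 c => (h1.l2 v x v2 (by omega) v1 c).1
  have T1 : ∀ u ∈ WR, q1 x ≤ u ∧ u < q u ∧ q1 u = q u ∧ (x < u ∧ u < N ∧ p u < x ∧ q u < N ∧
      q u ∉ WR ∧ p' u = x ∧ q' u = q (q u) ∧ p' (q u) = u ∧ q' (q u) = q (q u)) := by
    intro u hu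
    obtain ⟨a1, a2, a3, a4, a5, a6, a7, a8, a9⟩ := S.wr u hu
    have o := outR u a1 a2 a3
    have e := same u (by omega) a2 (Or.inl o)
    have pu := h.pl u (by omega) a2
    rw [e.2] at a4 a5 a7 a8 a9
    have e' := same (q u) (by omega) a4 (Or.inl (by omega))
    rw [e'.2] at a7 a9
    exact ⟨o, by omega, e.2, a1, a2, by omega, a4, a5, a6, a7, a8, a9⟩
  have T2 : ∀ u ∈ WL, u ≤ p1 x ∧ p u < u ∧ p1 u = p u ∧ (u < x ∧ 0 < u ∧ x < q u ∧ 0 < p u ∧
      p u ∉ WL ∧ q' u = x ∧ p' u = p (p u) ∧ q' (p u) = u ∧ p' (p u) = p (p u)) := by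
    intro u hu
    obtain ⟨a1, a2, a3, a4, a5, a6, a7, a8, a9⟩ := S.wl u hu
    have o := outL u a1 a2 a3
    have e := same u a2 (by omega) (Or.inr o)
    have pu := h.pl u a2 (by omega)
    rw [e.1] at a4 a5 a7 a8 a9
    have e' := same (p u) a4 (by omega) (Or.inr (by omega))
    rw [e'.1] at a7 a9
    exact ⟨o, by omega, e.1, a1, a2, by omega, a4, a5, a6, a7, a8, a9⟩
  have T3 : ∀ r ∈ UR, q1 x ≤ r ∧ m r ≤ p1 x ∧ (x < r ∧ r < N ∧ 0 < m r ∧ m r < x ∧ p r < x ∧
      x < q (m r) ∧ ((q (m r) = r ∧ p r = p (m r)) ∨ (p r = m r ∧ q (m r) = q r))) := by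
    intro r hr
    obtain ⟨a1, a2, a3, a4, a5, a6, a7⟩ := S.ur r hr
    have o1 := outR r a1 a2 a5
    have o2 := outL (m r) a4 a3 a6
    have e1 := same r (by omega) a2 (Or.inl o1)
    have e2 := same (m r) a3 (by omega) (Or.inr o2)
    rw [e1.1, e1.2, e2.1, e2.2] at a7
    exact ⟨o1, o2, a1, a2, a3, a4, by omega, by omega, a7⟩
  have T4 : ∀ v, x < v → v < N → v ∉ WR → (∀ u ∈ WR, q u ≠ v) →
      p' v = max (p1 v) x ∧ q' v = q1 v ∧ (p1 v < x → v ∈ UR ∨ v = f) :=
    fun v v1 v2 c d => S.orr v v1 v2 c (fun u hu => by rw [(T1 u hu).2.2.1]; exact d u hu)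
  have T5 : ∀ v, v < x → 0 < v → v ∉ WL → (∀ u ∈ WL, p u ≠ v) →
      q' v = min (q1 v) x ∧ p' v = p1 v ∧ (x < q1 v → (∃ r ∈ UR, m r = v) ∨ v = f) :=
    fun v v1 v2 c d => S.ol v v1 v2 c (fun u hu => by rw [(T2 u hu).2.2.1]; exact d u hu)
  have I4 : ∀ v, x < v → v < q1 x → p' v = max (p1 v) x ∧ q' v = q1 v := by
    intro v v1 v2
    have := T4 v v1 (by omega) (fun hv => by have := (T1 v hv).1; omega)
      (fun u hu => by have := T1 u hu; omega)
    exact ⟨this.1, this.2.1⟩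
  have I5 : ∀ v, v < x → p1 x < v → q' v = min (q1 v) x ∧ p' v = p1 v := by
    intro v v1 v2
    have := T5 v v1 (by omega) (fun hv => by have := (T2 v hv).1; omega)
      (fun u hu => by have := T2 u hu; omega)
    exact ⟨this.1, this.2.1⟩
  rcases t with t | t | t
  · obtain ⟨b1, b2, b3, b4, b5, b6, b7, b8, b9, b10, b11⟩ := t
    have iy := I4 y b1 (by omega)
    have iz := I4 z (by omega) (by omega)
    refine ⟨insert y WR, WL, UR, m, fun u hu => ?_, fun v v1 v2 c d => ?_,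
      fun u hu => (T2 u hu).2.2.2, fun v v1 v2 c d => ?_, fun r hr => (T3 r hr).2.2, S.inj⟩
    · rcases Finset.mem_insert.1 hu with rfl | hu
      · rw [b3]
        refine ⟨b1, y2, by omega, z2, ?_, by omega, by omega, by omega, by omega⟩
        rw [Finset.mem_insert]
        rintro (c | c)
        · omega
        · have := (T1 z c).1; omega
      · obtain ⟨o1, o2, o3, a1, a2, a3, a4, a5, a6⟩ := T1 u hu
        refine ⟨a1, a2, a3, a4, ?_, a6⟩
        rw [Finset.mem_insert]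
        rintro (c | c)
        · omega
        · exact a5 c
    · have n1 : v ≠ y := fun e => c (e ▸ Finset.mem_insert_self _ _)
      have n2 : v ≠ z := fun e => d y (Finset.mem_insert_self _ _) (by omega)
      have e := s v (by omega) v2 (by omega) n1 n2
      have := T4 v v1 v2 (fun hv => c (Finset.mem_insert_of_mem hv))
        (fun u hu => d u (Finset.mem_insert_of_mem hu))
      rwa [e.1, e.2] at this
    · have e := s v v2 (by omega) (by omega) (by omega) (by omega)
      have := T5 v v1 v2 c d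
      rwa [e.1, e.2] at this
  · obtain ⟨b1, b2, b3, b4, b5, b6, b7, b8, b9, b10, b11⟩ := t
    have iy := I5 y b1 (by omega)
    have iz := I5 z (by omega) (by omega)
    refine ⟨WR, insert y WL, UR, m, fun u hu => (T1 u hu).2.2.2, fun v v1 v2 c d => ?_,
      fun u hu => ?_, fun v v1 v2 c d => ?_, fun r hr => (T3 r hr).2.2, S.inj⟩
    · have e := s v (by omega) v2 (by omega) (by omega) (by omega)
      have := T4 v v1 v2 c d
      rwa [e.1, e.2] at this
    · rcases Finset.mem_insert.1 hu with rfl | hu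
      · rw [b3]
        refine ⟨b1, y1, by omega, z1, ?_, by omega, by omega, by omega, by omega⟩
        rw [Finset.mem_insert]
        rintro (c | c)
        · omega
        · have := (T2 z c).1; omega
      · obtain ⟨o1, o2, o3, a1, a2, a3, a4, a5, a6⟩ := T2 u hu
        refine ⟨a1, a2, a3, a4, ?_, a6⟩
        rw [Finset.mem_insert]
        rintro (c | c)
        · omega
        · exact a5 c
    · have n1 : v ≠ y := fun e => c (e ▸ Finset.mem_insert_self _ _)
      have n2 : v ≠ z := fun e => d y (Finset.mem_insert_self _ _) (by omega)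
      have e := s v v2 (by omega) (by omega) n1 n2
      have := T5 v v1 v2 (fun hv => c (Finset.mem_insert_of_mem hv))
        (fun u hu => d u (Finset.mem_insert_of_mem hu))
      rwa [e.1, e.2] at this
  · obtain ⟨b1, b2, b3, b4, b5, b6, b7, b8, b9⟩ := t
    have iy := I5 y b1 (by omega)
    have iz := I4 z b2 (by omega)
    have mz : ∀ r ∈ UR, (if r = z then y else m r) = m r :=
      fun r hr => if_neg (by have := (T3 r hr).1; omega)
    refine ⟨WR, WL, insert z UR, fun r => if r = z then y else m r, fun u hu => (T1 u hu).2.2.2,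
      fun v v1 v2 c d => ?_, fun u hu => (T2 u hu).2.2.2, fun v v1 v2 c d => ?_, fun r hr => ?_,
      fun r hr r' hr' => ?_⟩
    · by_cases n : v = z
      · subst n
        exact ⟨by omega, by omega, fun _ => Or.inl (Finset.mem_insert_self _ _)⟩
      · have e := s v (by omega) v2 (by omega) (by omega) n
        have := T4 v v1 v2 c d
        rw [e.1, e.2] at this
        exact ⟨this.1, this.2.1, fun g => (this.2.2 g).imp Finset.mem_insert_of_mem id⟩
    · by_cases n : v = y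
      · subst n
        exact ⟨by omega, by omega, fun _ => Or.inl ⟨z, Finset.mem_insert_self _ _, if_pos rfl⟩⟩
      · have e := s v v2 (by omega) (by omega) n (by omega)
        have := T5 v v1 v2 c d
        rw [e.1, e.2] at this
        refine ⟨this.1, this.2.1, fun g => (this.2.2 g).imp ?_ id⟩
        rintro ⟨r, hr, e⟩
        exact ⟨r, Finset.mem_insert_of_mem hr, by rw [mz r hr, e]⟩
    · rcases Finset.mem_insert.1 hr with rfl | hr
      · simp only [if_pos]
        omega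
      · simp only [mz r hr]
        exact (T3 r hr).2.2
    · rcases Finset.mem_insert.1 hr with e | k <;>
        rcases Finset.mem_insert.1 hr' with e' | k'
      · intro _; omega
      · have := (T3 r' k').2.1
        simp only [mz r' k', if_pos e]
        omega
      · have := (T3 r k).2.1
        simp only [mz r k, if_pos e']
        omega
      · simp only [mz r k, mz r' k']
        exact S.inj r k r' k'

end

theorem Splay.sp {x N : ℤ} {S S' : BT ℤ} (h : Splay x S S') (hF : Full 0 N S) :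
    Full 0 N S' ∧ 0 < x ∧ x < N ∧
      ∃ WR WL UR m f, Sp N x (pb S 0) (qb S N) (pb S' 0) (qb S' N) WR WL UR m f := by
  induction h with
  | done A B =>
    have c1 := hF.1.lt
    have c2 := hF.2.lt
    exact ⟨hF, c1, c2, _, _, _, _, x, Sp.base hF.lam c1 c2 pb_eq qb_eq
      (fun _ _ _ _ _ => ⟨rfl, rfl⟩) (fun h => by omega) (fun h => by omega)⟩
  | zigL A B C a =>
    obtain ⟨⟨f1, f2⟩, f3⟩ := hF
    have c1 := f1.lt
    have c2 := f2.lt
    have c3 := f3.lt
    have g : Full 0 N (node A x (node B a C)) := ⟨f1, f2, f3⟩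
    refine ⟨g, c1, by omega, _, _, _, _, a, Sp.base g.lam c1 (by omega) pb_eq qb_eq
      (fun v _ _ _ _ => ?_) (fun h => ?_) (fun h => by omega)⟩
    all_goals
      simp only [pb, qb]
      split_ifs <;> omega
  | zigR A B C a =>
    obtain ⟨f1, f2, f3⟩ := hF
    have c1 := f1.lt
    have c2 := f2.lt
    have c3 := f3.lt
    have g : Full 0 N (node (node A a B) x C) := ⟨⟨f1, f2⟩, f3⟩
    refine ⟨g, by omega, c3, _, _, _, _, a, Sp.base g.lam (by omega) c3 pb_eq qb_eq
      (fun v _ _ _ _ => ?_) (fun h => by omega) (fun h => ?_)⟩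
    all_goals
      simp only [pb, qb]
      split_ifs <;> omega
  | step S S₁ S' d _ ih =>
    obtain ⟨g1, g2, g3, g4⟩ := d.st 0 N hF
    obtain ⟨k1, -, -, WR, WL, UR, m, f, k2⟩ := ih g1
    obtain ⟨WR', WL', UR', m', k3⟩ := Sp.step hF.lam g1.lam g2 g3 g4 k2
    exact ⟨k1, g2, g3, WR', WL', UR', m', f, k3⟩

end Pool.Agent.Lib.MP_3ecc11_lc
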