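import Pool.Agent.Lib.MP_3ecc11_lc.Zone

set_option autoImplicit false

namespace Pool.Agent.Lib.MP_3ecc11_lc

def gam (a : ℕ) : ℕ := if a = 0 then 0 else if a = 1 then 5 else if a = 2 then 15 else 35

def gc (c : ℕ) : ℕ := if c = 0 then 1 else gam (c - 1)

def ex (w k c : ℕ) : ℕ := if w ≤ k then 40 * c else if w ≤ hi k then 8 * c else 0

def jn (w k j : ℕ) : ℕ := if w ≤ k ∧ j ≤ lo k ∧ lo k < w then 128 else 0

def crs (w kl kr : ℕ) : ℕ := if w ≤ max kl kr ∧ lo w < kl ∧ lo w < kr then 32 else 0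

def hid (w kl kr jl jr : ℕ) : ℕ :=
  1 + 8 * zn (min w (max kl kr)) + crs w kl kr + jn w kr jl + jn w kl jr

theorem gam_le (a : ℕ) : gam a ≤ 35 := by unfold gam; split_ifs <;> omega

theorem ex_le (w k c : ℕ) : ex w k c ≤ 40 * c := by unfold ex; split_ifs <;> omega

theorem jn_le (w k j : ℕ) : jn w k j ≤ 128 := by unfold jn; split_ifs <;> omega

theorem crs_le (w k j : ℕ) : crs w k j ≤ 32 := by unfold crs; split_ifs <;> omega

theorem hid_le (w kl kr jl jr : ℕ) : hid w kl kr jl jr ≤ 8 * zn w + 289 := by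
  have h1 := zn_mono (min_le_left w (max kl kr))
  have h2 := crs_le w kl kr
  have h3 := jn_le w kr jl
  have h4 := jn_le w kl jr
  unfold hid
  omega

theorem hid_comm (w kl kr jl jr : ℕ) : hid w kl kr jl jr = hid w kr kl jr jl := by
  unfold hid crs
  rw [max_comm kr kl]
  have : (w ≤ max kl kr ∧ lo w < kr ∧ lo w < kl) ↔ (w ≤ max kl kr ∧ lo w < kl ∧ lo w < kr) := by
    tauto
  simp only [this]
  omega

theorem numA1 (w w' kr c d om nN nA nP : ℕ) (hw : w' ≤ w) (h1 : 1 ≤ w') (h2 : 1 ≤ kr)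
    (hc : c ≤ 4) (hd : w' ≤ d) (key : om ≤ lo kr → lo kr < w' → w = w')
    (hN : w' < w → lo w' < d → lo w' < kr → 32 ≤ nN)
    (hA : lo kr < om → w' ≤ kr → lo kr < w' → 128 ≤ nA) (hP : w' ≤ lo kr → 160 ≤ nP) :
    ex w' kr c ≤ ex w kr c + nN + nA + nP := by
  have a1 := lo_lt h1
  have a2 := lo_lt h2
  have a3 := le_hi kr
  have a4 : lo kr < w' → w' ≤ hi kr → lo w' = lo kr := lo_eq
  unfold ex
  split_ifs <;> omega

theorem numA2 (w w' kl kr jl jr d om nN nA nP : ℕ) (hw : w' ≤ w) (h1 : 1 ≤ w') (h2 : 1 ≤ kr)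
    (hd : w' ≤ d) (hd2 : d ≤ kl) (key : om ≤ lo kr → lo kr < w' → w = w' ∧ jl ≤ lo kr)
    (hN : w' < w → lo w' < d → lo w' < kr → 32 ≤ nN)
    (hA : lo kr < om → w' ≤ kr → lo kr < w' → 128 ≤ nA) (hP : w' ≤ lo kr → 160 ≤ nP) :
    8 * zn w' + 1 + ex w' kr 4 ≤ hid w kl kr jl jr + nN + nA + nP := by
  have a1 := lo_lt h1
  have a2 := lo_lt h2
  have a3 := le_hi kr
  have a4 : lo kr < w' → w' ≤ hi kr → lo w' = lo kr := lo_eq
  have a5 : zn w' ≤ zn (min w (max kl kr)) := zn_mono (by omega)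
  have a6 : w = w' → lo w = lo w' := fun h => by rw [h]
  unfold hid ex crs jn
  split_ifs <;> omega

theorem numA4a (w w' kl kr jl jl' jr om nN nA nB : ℕ) (hw : w' ≤ w)
    (keyA : om ≤ lo kr → lo kr < w' → jl' ≤ lo kr → w = w' ∧ jl ≤ lo kr)
    (keyB : om ≤ lo kl → lo kl < w' → w = w')
    (hN : w' < w → lo w' < kl → lo w' < kr → 32 ≤ nN)
    (hA : lo kr < om → w' ≤ kr → lo kr < w' → jl' ≤ lo kr → 128 ≤ nA)
    (hB : lo kl < om → w' ≤ kl → lo kl < w' → jr ≤ lo kl → 128 ≤ nB) :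
    hid w' kl kr jl' jr ≤ hid w kl kr jl jr + nN + nA + nB := by
  have a5 : zn (min w' (max kl kr)) ≤ zn (min w (max kl kr)) := zn_mono (by omega)
  have b1 : crs w' kl kr ≤ crs w kl kr + nN := by
    rcases Nat.eq_or_lt_of_le hw with h | h
    · rw [h]; omega
    · unfold crs; split_ifs <;> omega
  have b2 : jn w' kr jl' ≤ jn w kr jl + nA := by
    unfold jn; split_ifs <;> omega
  have b3 : jn w' kl jr ≤ jn w kl jr + nB := by
    unfold jn; split_ifs <;> omega
  unfold hid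
  omega

theorem numA4b (w w' kl kr c om nN nB : ℕ) (hw : w' ≤ w) (h2 : 1 ≤ kl) (hc : c ≤ 4)
    (hk : w' < w → kl ≤ w' ∧ w' < kr)
    (keyB : om ≤ lo kl → lo kl < w' → w = w')
    (hN : w' < w → lo w' < kl → lo w' < kr → 32 ≤ nN)
    (hB : lo kl < om → w' ≤ kl → lo kl < w' → 128 ≤ nB) :
    ex w' kl c ≤ ex w kl c + nN + nB := by
  have a2 := lo_lt h2
  have a3 := le_hi kl
  have a4 : lo kl < w' → w' ≤ hi kl → lo w' = lo kl := lo_eq
  rcases Nat.eq_or_lt_of_le hw with h | h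
  · rw [h]; omega
  · unfold ex
    split_ifs <;> omega

theorem numPair (wy wz ky kz c : ℕ) (hc : c ≤ 4) (h1 : ky < wy → wy = wz) (h2 : ky < wz → wy = wz) :
    8 * zn wy + gam (min c 3) + ex wy (max ky kz) (3 - min c 3)
      + (1 + 8 * zn (min wz (max ky kz)) + crs wz ky kz) + 2
    ≤ (8 * zn wy + gc c + ex wy ky (4 - c)) + (8 * zn wz + gc c + ex wz kz (4 - c)) := by
  have a1 : zn (min wz (max ky kz)) ≤ zn wz := zn_mono (min_le_left _ _)
  have a2 : hi (max ky kz) < wz → zn (min wz (max ky kz)) < zn wz := fun h =>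
    lt_of_le_of_lt (zn_mono (min_le_right _ _)) (zn_lt h)
  have a3 := le_hi ky
  have a4 := le_hi kz
  have a5 : hi (max ky kz) = hi ky ∨ hi (max ky kz) = hi kz := by
    rcases max_choice ky kz with h | h <;> rw [h] <;> simp
  have a6 := le_hi (max ky kz)
  have a7 : wy = wz → zn wy = zn wz := fun h => by rw [h]
  have e : gam (min c 3) ≤ 2 * gc c + 5 ∧ (c = 4 → gam (min c 3) + 35 ≤ 2 * gc c) := by
    interval_cases c <;> simp [gam, gc]
  unfold ex crs
  split_ifs <;> omega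

theorem numSingle (w k c : ℕ) (hc : c ≤ 4) :
    gam (min c 3) + ex w k (3 - min c 3) + 1 ≤ gc c + ex w k (4 - c) + (if c = 0 then 0 else 21) := by
  have e : gam (min c 3) + 1 ≤ gc c + (if c = 0 then 0 else 21) := by
    interval_cases c <;> simp [gam, gc]
  unfold ex
  split_ifs at * <;> omega

/-- wholeness level of `v` inside the piece `(L, R)` -/
def ww (V : LV) (L R v : ℤ) : ℕ := min (V.lev L v) (V.lev v R)

/-- potential of the node `v` with nearest ancestors `P`, `Q` inside the piece `(L, R)` -/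
def pot (V : LV) (L R P Q : ℤ) (aL aR : ℕ) (v : ℤ) : ℕ :=
  if P = L then
    (if Q = R then 8 * zn (ww V L R v) + gam aL + gam aR
     else 8 * zn (ww V L R v) + gam aL + ex (ww V L R v) (V.lev v Q) (3 - aL))
  else if Q = R then 8 * zn (ww V L R v) + gam aR + ex (ww V L R v) (V.lev P v) (3 - aR)
  else hid (ww V L R v) (V.lev P v) (V.lev v Q) (V.lev L P) (V.lev Q R)

theorem pot_le (V : LV) (L R P Q : ℤ) (aL aR : ℕ) (v : ℤ) :
    pot V L R P Q aL aR v ≤ 8 * zn (ww V L R v) + 289 := by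
  have h1 := gam_le aL
  have h2 := gam_le aR
  have h3 := ex_le (ww V L R v) (V.lev v Q) (3 - aL)
  have h4 := ex_le (ww V L R v) (V.lev P v) (3 - aR)
  have h5 := hid_le (ww V L R v) (V.lev P v) (V.lev v Q) (V.lev L P) (V.lev Q R)
  unfold pot
  split_ifs <;> omega

theorem ww_refl (V : LV) (L R v : ℤ) : ww V.refl (-R) (-L) (-v) = ww V L R v := by
  simp only [ww, LV.refl, neg_neg]
  rw [min_comm, V.sym v L, V.sym R v]

theorem pot_refl (V : LV) (L R P Q : ℤ) (aL aR : ℕ) (v : ℤ) :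
    pot V.refl (-R) (-L) (-Q) (-P) aR aL (-v) = pot V L R P Q aL aR v := by
  unfold pot
  rw [ww_refl]
  simp only [neg_inj, LV.refl, neg_neg]
  rw [V.sym v P, V.sym Q v, V.sym R Q, V.sym P L, hid_comm]
  split_ifs <;> omega

open Classical in
/-- the budget term of the representative `v` in zone `i` -/
noncomputable def bt (V : LV) (L R : ℤ) (c : ℤ × ℕ) : ℕ :=
  if V.Rep c.2 c.1 ∧ tw c.2 < ww V L R c.1 then 32 * min (ww V L R c.1) (tw (c.2 + 1) + 1) else 0

theorem bt_refl (V : LV) (L R v : ℤ) (i : ℕ) : bt V.refl (-R) (-L) (-v, i) = bt V L R (v, i) := by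
  have e : V.refl.Rep i (-v) ↔ V.Rep i v := by simp only [LV.refl, neg_neg]
  by_cases h : V.Rep i v ∧ tw i < ww V L R v
  · rw [bt, bt, if_pos h, if_pos (by rw [e, ww_refl]; exact h), ww_refl]
  · rw [bt, bt, if_neg h, if_neg (by rw [e, ww_refl]; exact h)]

end Pool.Agent.Lib.MP_3ecc11_lc
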