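import Pool.Agent.Lib.MP_3ecc11_lc.Side

set_option autoImplicit false
set_option linter.unusedVariables false

namespace Pool.Agent.Lib.MP_3ecc11_lc

/-- conjugation by negation -/
def rf (f : ℤ → ℤ) : ℤ → ℤ := fun v => -f (-v)

theorem rf_rf (f : ℤ → ℤ) : rf (rf f) = f := by
  funext v; simp [rf]

/-- effect of splaying `x` on the keys to its left, inside a piece with left end `L` -/
structure SideL (L x : ℤ) (p q p' q' : ℤ → ℤ) (W : Finset ℤ) : Prop where
  win : ∀ y ∈ W, y < x ∧ L < y ∧ x ≤ q y ∧ L < p y ∧ p y ∉ W ∧ q' y = x ∧ p' y = p (p y) ∧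
    q' (p y) = y ∧ p' (p y) = p (p y)
  oth : ∀ v, v < x → L < v → v ∉ W → (∀ y ∈ W, p y ≠ v) → q' v = min (q v) x ∧ p' v = p v

section
variable {V : LV} {L R x : ℤ} {p q p' q' : ℤ → ℤ} {Z : ℕ} {aL aR : ℤ → ℕ} {W : Finset ℤ}

theorem Lam.refl (h : Lam L R p q) : Lam (-R) (-L) (rf q) (rf p) := by
  refine ⟨fun v v1 v2 => ?_, fun v w v1 v2 w1 w2 => ?_, fun v w v1 v2 w1 w2 => ?_,
    fun v v1 v2 h1 => ?_, fun v v1 v2 h1 => ?_⟩
  · have := h.pl (-v) (by omega) (by omega)
    unfold rf; omega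
  · unfold rf at *
    have := h.l2 (-v) (-w) (by omega) (by omega) (by omega) (by omega)
    omega
  · unfold rf at *
    have := h.l1 (-v) (-w) (by omega) (by omega) (by omega) (by omega)
    omega
  · unfold rf at *
    have := h.l4 (-v) (by omega) (by omega) (by omega)
    rw [neg_neg]; omega
  · unfold rf at *
    have := h.l3 (-v) (by omega) (by omega) (by omega)
    rw [neg_neg]; omega

theorem Cx.refl (C : Cx V L R x p q Z) : Cx V.refl (-R) (-L) (-x) (rf q) (rf p) Z := by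
  refine ⟨by have := C.hR; omega, by have := C.hL; omega, C.lam.refl, fun u v h1 h2 h3 => ?_,
    fun u v h1 h2 h3 => ?_⟩
  · show 1 ≤ V.lev (-u) (-v)
    rw [V.sym]
    exact C.pos _ _ (by omega) (by omega) (by omega)
  · show zn (V.lev (-u) (-v)) < Z
    rw [V.sym]
    exact C.zlt _ _ (by omega) (by omega) (by omega)

theorem Age.refl (A : Age L R p q aL aR) :
    Age (-R) (-L) (rf q) (rf p) (fun v => aR (-v)) (fun v => aL (-v)) := by
  refine ⟨fun v => A.bR _, fun v => A.bL _, fun u v h1 h2 h3 h4 h5 => ?_,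
    fun u v h1 h2 h3 h4 h5 => ?_⟩
  · unfold rf at *
    exact A.mR (-v) (-u) (by omega) (by omega) (by omega) (by omega) (by omega)
  · unfold rf at *
    exact A.mL (-v) (-u) (by omega) (by omega) (by omega) (by omega) (by omega)

theorem mem_negs {v : ℤ} : v ∈ W.image (fun t => -t) ↔ -v ∈ W := by
  rw [Finset.mem_image]
  constructor
  · rintro ⟨t, h, rfl⟩
    simpa using h
  · intro h
    exact ⟨-v, h, by simp⟩

theorem SideL.refl (S : SideL L x p q p' q' W) :
    Side (-L) (-x) (rf q) (rf p) (rf q') (rf p') (W.image (fun t => -t)) := by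
  refine ⟨fun y hy => ?_, fun v v1 v2 h1 h2 => ?_⟩
  · rw [mem_negs] at hy
    obtain ⟨a1, a2, a3, a4, a5, a6, a7, a8, a9⟩ := S.win _ hy
    rw [mem_negs]
    unfold rf
    simp only [neg_neg]
    refine ⟨by omega, by omega, by omega, by omega, a5, by omega, by omega, by omega, by omega⟩
  · rw [mem_negs] at h1
    have := S.oth (-v) (by omega) (by omega) h1 (fun y hy e => h2 (-y)
      (by rw [mem_negs]; simpa using hy) (by unfold rf; rw [neg_neg]; omega))
    unfold rf
    omega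

theorem sum_neg_Ioo (u v : ℤ) (f : ℤ → ℕ) :
    ∑ t ∈ Finset.Ioo (-v) (-u), f t = ∑ t ∈ Finset.Ioo u v, f (-t) := by
  apply Finset.sum_bij' (fun t _ => -t) (fun t _ => -t)
  all_goals
    intro t ht
    simp only [Finset.mem_Ioo, neg_neg] at *
  all_goals omega

theorem phi_refl (V : LV) (Z : ℕ) (L R u v : ℤ) (p q : ℤ → ℤ) (a b : ℤ → ℕ) :
    phi V.refl Z (-R) (-L) (rf q) (rf p) a b (Finset.Ioo (-v) (-u))
      = phi V Z L R p q (fun t => b (-t)) (fun t => a (-t)) (Finset.Ioo u v) := by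
  unfold phi
  rw [Finset.sum_product, Finset.sum_product, sum_neg_Ioo, sum_neg_Ioo]
  congr 1
  · apply Finset.sum_congr rfl
    intro t _
    unfold rf
    rw [neg_neg, pot_refl]
  · apply Finset.sum_congr rfl
    intro t _
    apply Finset.sum_congr rfl
    intro i _
    rw [bt_refl]

open Classical in
theorem Cx.sideL (C : Cx V L R x p q Z) (A : Age L R p q aL aR) (S : SideL L x p q p' q' W) :
    ∃ aL' aR', Age L x p' q' aL' aR' ∧
      phi V Z L x p' q' aL' aR' (Finset.Ioo L x) + ((Finset.Ioo L x).filter (fun v => x ≤ q v)).card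
      ≤ phi V Z L R p q aL aR (Finset.Ioo L x)
        + 21 * ((Finset.Ioo L x).filter (fun v => q v = R ∧ v ∉ W ∧ ∀ y ∈ W, p y ≠ v)).card
        + 512 * (hi (ww V L R x) + 1) + 416 * Z + 3770 := by
  obtain ⟨a, b, h1, h2⟩ := C.refl.sideR A.refl S.refl
  refine ⟨fun t => b (-t), fun t => a (-t), ?_, ?_⟩
  · have := h1.refl
    rwa [neg_neg, neg_neg, rf_rf, rf_rf] at this
  · rw [phi_refl, phi_refl, ww_refl] at h2
    simp only [neg_neg] at h2
    have c1 : ((Finset.Ioo L x).filter (fun v => x ≤ q v)).card ≤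
        ((Finset.Ioo (-x) (-L)).filter (fun v => rf q v ≤ -x)).card := by
      apply card_le_of_lt_ne _ _ (fun t => -t)
      · intro v hv
        rw [Finset.mem_filter, Finset.mem_Ioo] at *
        unfold rf
        rw [neg_neg]
        omega
      · intro u _ v _ h
        omega
    have c2 : ((rest (-L) (-x) (rf p) (W.image (fun t => -t))).filter (fun v => rf q v = -R)).card ≤
        ((Finset.Ioo L x).filter (fun v => q v = R ∧ v ∉ W ∧ ∀ y ∈ W, p y ≠ v)).card := by
      apply card_le_of_lt_ne _ _ (fun t => -t)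
      · intro v hv
        rw [Finset.mem_filter, mem_rest, mem_negs] at hv
        obtain ⟨⟨a1, a2, a3, a4⟩, a5⟩ := hv
        rw [Finset.mem_filter, Finset.mem_Ioo]
        unfold rf at a5
        refine ⟨by omega, by omega, a3, fun y hy e => a4 (-y) (by rw [mem_negs]; simpa using hy) ?_⟩
        unfold rf
        rw [neg_neg]
        omega
      · intro u _ v _ h
        omega
    linarith

open Classical in
theorem Cx.sideR' (C : Cx V L R x p q Z) (A : Age L R p q aL aR) (S : Side R x p q p' q' W) :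
    ∃ aL' aR', Age x R p' q' aL' aR' ∧
      phi V Z x R p' q' aL' aR' (Finset.Ioo x R) + ((Finset.Ioo x R).filter (fun v => p v ≤ x)).card
      ≤ phi V Z L R p q aL aR (Finset.Ioo x R)
        + 21 * ((Finset.Ioo x R).filter (fun v => p v = L ∧ v ∉ W ∧ ∀ y ∈ W, q y ≠ v)).card
        + 512 * (hi (ww V L R x) + 1) + 416 * Z + 3770 := by
  obtain ⟨a, b, h1, h2⟩ := C.sideR A S
  refine ⟨a, b, h1, ?_⟩
  have c2 : ((rest R x q W).filter (fun v => p v = L)).card ≤
      ((Finset.Ioo x R).filter (fun v => p v = L ∧ v ∉ W ∧ ∀ y ∈ W, q y ≠ v)).card := by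
    apply Finset.card_le_card
    intro v hv
    rw [Finset.mem_filter, mem_rest] at hv
    rw [Finset.mem_filter, Finset.mem_Ioo]
    tauto
  linarith

open Classical in
/-- budget for cuts through whole blocks -/
noncomputable def rc (V : LV) (L R : ℤ) (c : ℤ × ℕ) : ℕ :=
  if V.Rep c.2 c.1 ∧ tw c.2 < ww V L R c.1 then 1024 * (tw (c.2 + 1) + 1) else 0

theorem sum_Ioo_split (L x R : ℤ) (h1 : L < x) (h2 : x < R) (f : ℤ → ℕ) :
    ∑ v ∈ Finset.Ioo L R, f v = ∑ v ∈ Finset.Ioo L x, f v + f x + ∑ v ∈ Finset.Ioo x R, f v := by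
  have e : Finset.Ioo L R = (Finset.Ioo L x ∪ {x}) ∪ Finset.Ioo x R := by
    ext v
    simp only [Finset.mem_union, Finset.mem_Ioo, Finset.mem_singleton]
    omega
  rw [e, Finset.sum_union, Finset.sum_union, Finset.sum_singleton]
  · rw [Finset.disjoint_left]
    intro v
    simp only [Finset.mem_Ioo, Finset.mem_singleton]
    omega
  · rw [Finset.disjoint_left]
    intro v
    simp only [Finset.mem_union, Finset.mem_Ioo, Finset.mem_singleton]
    omega

theorem Cx.rcdrop (C : Cx V L R x p q Z) :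
    ∑ c ∈ Finset.Ioo L x ×ˢ Finset.range Z, rc V L x c
      + ∑ c ∈ Finset.Ioo x R ×ˢ Finset.range Z, rc V x R c + 1024 * (hi (ww V L R x) + 1)
    ≤ ∑ c ∈ Finset.Ioo L R ×ˢ Finset.range Z, rc V L R c := by
  have hL := C.hL
  have hR := C.hR
  obtain ⟨g, g1, g2⟩ := V.rep (zn (ww V L R x)) x
  have w0 : 1 ≤ ww V L R x := by
    have a1 := C.pos L x le_rfl hL hR.le
    have a2 := C.pos x R hL.le hR le_rfl
    unfold ww; omega
  have a1 := lo_lt w0
  unfold lo at a1
  have w1 : ww V L R x ≤ V.lev L x := min_le_left _ _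
  have w2 : ww V L R x ≤ V.lev x R := min_le_right _ _
  have b1 := V.blkL (g := g) hL (by omega)
  have b2 := V.blkR (g := g) hR (by omega)
  have e1 : ww V L R g = ww V L R x := by unfold ww; rw [b1.2, b2.2]
  have zl : zn (ww V L R x) < Z :=
    lt_of_le_of_lt (zn_mono w1) (C.zlt L x le_rfl hL.le hR.le)
  have h := sum_drop (Finset.Ioo L R ×ˢ Finset.range Z) {(g, zn (ww V L R x))}
    (fun c => if c.1 < x then rc V L x c else if x < c.1 then rc V x R c else 0) (rc V L R)
    (1024 * (hi (ww V L R x) + 1)) (by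
      intro c hc
      rw [Finset.mem_singleton] at hc
      subst hc
      exact Finset.mem_product.2 ⟨Finset.mem_Ioo.2 ⟨b1.1, b2.1⟩, Finset.mem_range.2 zl⟩) (by
      intro c hc
      have hc1 := Finset.mem_Ioo.1 (Finset.mem_product.1 hc).1
      have s1 : c.1 < x → V.lev c.1 x ≤ V.lev c.1 R := fun h => V.sub le_rfl h.le hR.le
      have s2 : x < c.1 → V.lev x c.1 ≤ V.lev L c.1 := fun h => V.sub hL.le h.le le_rfl
      unfold rc ww
      split_ifs with t1 t2 t3 t4 t5 t6 t7
      all_goals first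
        | omega
        | exact absurd ⟨t2.1, by omega⟩ t3
        | exact absurd ⟨t6.1, by omega⟩ t7) (by
      intro c hc
      rw [Finset.mem_singleton] at hc
      subst hc
      have s := V.sym g x
      have e2 : rc V L R (g, zn (ww V L R x)) = 1024 * (hi (ww V L R x) + 1) := by
        unfold rc
        rw [if_pos ⟨g1, by dsimp only; omega⟩]
        rfl
      have e3 : rc V L x (g, zn (ww V L R x)) = 0 := by
        unfold rc
        rw [if_neg]
        rintro ⟨-, h⟩
        have : ww V L x g ≤ V.lev g x := min_le_right _ _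
        dsimp only at h
        omega
      have e4 : rc V x R (g, zn (ww V L R x)) = 0 := by
        unfold rc
        rw [if_neg]
        rintro ⟨-, h⟩
        have : ww V x R g ≤ V.lev x g := min_le_left _ _
        dsimp only at h
        omega
      rw [e2, e3, e4]
      simp)
  rw [Finset.card_singleton, Finset.sum_product, sum_Ioo_split L x R hL hR] at h
  rw [Finset.sum_product, Finset.sum_product]
  have t1 : ∑ v ∈ Finset.Ioo L x, ∑ i ∈ Finset.range Z, rc V L x (v, i)
      = ∑ v ∈ Finset.Ioo L x, ∑ i ∈ Finset.range Z,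
        (if (v, i).1 < x then rc V L x (v, i) else if x < (v, i).1 then rc V x R (v, i) else 0) :=
    Finset.sum_congr rfl (fun v hv => Finset.sum_congr rfl (fun i _ => by
      rw [if_pos (Finset.mem_Ioo.1 hv).2]))
  have t2 : ∑ v ∈ Finset.Ioo x R, ∑ i ∈ Finset.range Z, rc V x R (v, i)
      = ∑ v ∈ Finset.Ioo x R, ∑ i ∈ Finset.range Z,
        (if (v, i).1 < x then rc V L x (v, i) else if x < (v, i).1 then rc V x R (v, i) else 0) :=
    Finset.sum_congr rfl (fun v hv => Finset.sum_congr rfl (fun i _ => by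
      have := (Finset.mem_Ioo.1 hv).1
      rw [if_neg (by dsimp only; omega), if_pos this]))
  rw [← t1, ← t2, mul_one] at h
  exact le_trans (Nat.add_le_add_right (Nat.add_le_add_right (Nat.le_add_right _ _) _) _) h

/-- full potential of the piece `(L, R)` -/
noncomputable def Phi (V : LV) (Z : ℕ) (L R : ℤ) (p q : ℤ → ℤ) (aL aR : ℤ → ℕ) : ℕ :=
  phi V Z L R p q aL aR (Finset.Ioo L R) + ∑ c ∈ Finset.Ioo L R ×ˢ Finset.range Z, rc V L R c

open Classical in
theorem Cx.split (C : Cx V L R x p q Z) (A : Age L R p q aL aR) {p1 q1 p2 q2 : ℤ → ℤ}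
    {W1 W2 : Finset ℤ} (S1 : SideL L x p q p1 q1 W1) (S2 : Side R x p q p2 q2 W2) {k1 k2 : ℕ}
    (hk1 : ∀ K : Finset ℤ, (∀ v ∈ K, L < v ∧ v < x ∧ q v = R ∧ v ∉ W1 ∧ ∀ y ∈ W1, p y ≠ v) →
      K.card ≤ k1)
    (hk2 : ∀ K : Finset ℤ, (∀ v ∈ K, x < v ∧ v < R ∧ p v = L ∧ v ∉ W2 ∧ ∀ y ∈ W2, q y ≠ v) →
      K.card ≤ k2) :
    ∃ a1 b1 a2 b2, Age L x p1 q1 a1 b1 ∧ Age x R p2 q2 a2 b2 ∧
      Phi V Z L x p1 q1 a1 b1 + Phi V Z x R p2 q2 a2 b2
        + ((Finset.Ioo L x).filter (fun v => x ≤ q v)).card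
        + ((Finset.Ioo x R).filter (fun v => p v ≤ x)).card
      ≤ Phi V Z L R p q aL aR + 21 * k1 + 21 * k2 + 832 * Z + 7540 := by
  obtain ⟨a1, b1, h1, h2⟩ := C.sideL A S1
  obtain ⟨a2, b2, h3, h4⟩ := C.sideR' A S2
  refine ⟨a1, b1, a2, b2, h1, h3, ?_⟩
  have h5 := C.rcdrop
  have k3 := hk1 ((Finset.Ioo L x).filter (fun v => q v = R ∧ v ∉ W1 ∧ ∀ y ∈ W1, p y ≠ v))
    (fun v hv => by
      rw [Finset.mem_filter, Finset.mem_Ioo] at hv
      exact ⟨hv.1.1, hv.1.2, hv.2⟩)
  have k4 := hk2 ((Finset.Ioo x R).filter (fun v => p v = L ∧ v ∉ W2 ∧ ∀ y ∈ W2, q y ≠ v))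
    (fun v hv => by
      rw [Finset.mem_filter, Finset.mem_Ioo] at hv
      exact ⟨hv.1.1, hv.1.2, hv.2⟩)
  have h6 : phi V Z L R p q aL aR (Finset.Ioo L x) + phi V Z L R p q aL aR (Finset.Ioo x R)
      ≤ phi V Z L R p q aL aR (Finset.Ioo L R) := by
    unfold phi
    simp only [Finset.sum_product]
    rw [sum_Ioo_split L x R C.hL C.hR, sum_Ioo_split L x R C.hL C.hR]
    omega
  unfold Phi
  omega

theorem phi_congr (V : LV) (Z : ℕ) (L R : ℤ) (p q p' q' : ℤ → ℤ) (aL aR : ℤ → ℕ)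
    (h : ∀ v, L < v → v < R → p v = p' v ∧ q v = q' v) :
    Phi V Z L R p q aL aR = Phi V Z L R p' q' aL aR := by
  unfold Phi phi
  congr 2
  apply Finset.sum_congr rfl
  intro v hv
  have := h v (Finset.mem_Ioo.1 hv).1 (Finset.mem_Ioo.1 hv).2
  rw [this.1, this.2]

end

end Pool.Agent.Lib.MP_3ecc11_lc
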