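import Pool.Agent.Lib.MP_3ecc11_lc.Path
import Pool.Agent.Lib.MP_3ecc11_lc.Refl

set_option autoImplicit false
set_option linter.unusedVariables false

namespace Pool.Agent.Lib.MP_3ecc11_lc

def pJ (a : ℤ) (p : ℤ → ℤ) (v : ℤ) : ℤ := max a (p v)
def qJ (b : ℤ) (q : ℤ → ℤ) (v : ℤ) : ℤ := min b (q v)

noncomputable def Psi (q : ℤ → ℤ) (a : ℤ) : ℕ := ((Finset.Ioc 0 a).filter (fun v => a < q v)).card
noncomputable def Th (p : ℤ → ℤ) (a u v : ℤ) : ℕ :=
  ((Finset.Ioo u v).filter (fun w => p w < a)).card

/-- one round of the traversal inside the piece `(a, b)` -/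
structure Rd (N a x b : ℤ) (p q p' q' : ℤ → ℤ) (WR WL UR : Finset ℤ) (m : ℤ → ℤ) (f : ℤ) :
    Prop where
  a0 : 0 ≤ a
  ax : a < x
  xb : x < b
  bN : b ≤ N
  lam : Lam 0 N p q
  inv : ∀ v, b < v → v < N → b ≤ p v
  sp : Sp N x p q p' q' WR WL UR m f

section
variable {N a x b : ℤ} {p q p' q' : ℤ → ℤ} {WR WL UR : Finset ℤ} {m : ℤ → ℤ} {f : ℤ}

theorem Lam.restr (h : Lam 0 N p q) (a0 : 0 ≤ a) (bN : b ≤ N) : Lam a b (pJ a p) (qJ b q) := by
  unfold pJ qJ
  refine ⟨fun v v1 v2 => ?_, fun v w v1 v2 w1 w2 => ?_, fun v w v1 v2 w1 w2 => ?_,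
    fun v v1 v2 g => ?_, fun v v1 v2 g => ?_⟩
  · have := h.pl v (by omega) (by omega)
    omega
  · have := h.l1 v w (by omega) (by omega) (by omega) w2
    omega
  · have := h.l2 v w (by omega) (by omega) w1 (by omega)
    omega
  · have := h.l3 v (by omega) (by omega) (by omega)
    rw [min_eq_right (by omega)]
    omega
  · have := h.l4 v (by omega) (by omega) (by omega)
    rw [max_eq_right (by omega : a ≤ p v)]
    omega

theorem Rd.side (H : Rd N a x b p q p' q' WR WL UR m f) :
    Side b x (pJ a p) (qJ b q) (pJ x p') (qJ b q') (WR.filter (fun y => q y < b)) := by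
  have := H.a0; have := H.ax; have := H.xb; have := H.bN
  refine ⟨fun y hy => ?_, fun v v1 v2 c d => ?_⟩
  · obtain ⟨hy1, hy2⟩ := Finset.mem_filter.1 hy
    obtain ⟨a1, a2, a3, a4, a5, a6, a7, a8, a9⟩ := H.sp.wr y hy1
    have py := H.lam.pl y (by omega) a2
    have e : qJ b q y = q y := min_eq_right hy2.le
    rw [e]
    unfold pJ qJ
    refine ⟨a1, by omega, by omega, hy2, fun h => a5 (Finset.mem_filter.1 h).1, by omega, by omega,
      by omega, by omega⟩
  · by_cases g : v ∈ WR
    · obtain ⟨a1, a2, a3, a4, a5, a6, a7, a8, a9⟩ := H.sp.wr v g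
      have : ¬ q v < b := fun h => c (Finset.mem_filter.2 ⟨g, h⟩)
      have pz := H.lam.pl (q v) (by omega) a4
      unfold pJ qJ
      omega
    · have := H.sp.orr v v1 (by omega) g (fun y hy e =>
        d y (Finset.mem_filter.2 ⟨hy, by omega⟩) (by unfold qJ; omega))
      unfold pJ qJ
      omega

theorem Rd.sideL (H : Rd N a x b p q p' q' WR WL UR m f) :
    SideL a x (pJ a p) (qJ b q) (pJ a p') (qJ x q') (WL.filter (fun y => a < p y)) := by
  have := H.a0; have := H.ax; have := H.xb; have := H.bN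
  refine ⟨fun y hy => ?_, fun v v1 v2 c d => ?_⟩
  · obtain ⟨hy1, hy2⟩ := Finset.mem_filter.1 hy
    obtain ⟨a1, a2, a3, a4, a5, a6, a7, a8, a9⟩ := H.sp.wl y hy1
    have py := H.lam.pl y a2 (by omega)
    have e : pJ a p y = p y := max_eq_right hy2.le
    rw [e]
    unfold pJ qJ
    refine ⟨a1, by omega, by omega, hy2, fun h => a5 (Finset.mem_filter.1 h).1, by omega, by omega,
      by omega, by omega⟩
  · by_cases g : v ∈ WL
    · obtain ⟨a1, a2, a3, a4, a5, a6, a7, a8, a9⟩ := H.sp.wl v g
      have : ¬ a < p v := fun h => c (Finset.mem_filter.2 ⟨g, h⟩)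
      have pz := H.lam.pl (p v) a4 (by omega)
      unfold pJ qJ
      omega
    · have := H.sp.ol v v1 (by omega) g (fun y hy e =>
        d y (Finset.mem_filter.2 ⟨hy, by omega⟩) (by unfold pJ; omega))
      unfold pJ qJ
      omega

noncomputable def dead (a x : ℤ) (q : ℤ → ℤ) : Finset ℤ := (Finset.Ioc 0 a).filter (fun v => x < q v)
noncomputable def topR (x b : ℤ) (p q : ℤ → ℤ) : Finset ℤ :=
  (Finset.Ioo x b).filter (fun v => p v < x ∧ b ≤ q v)
noncomputable def topL (a x : ℤ) (p q : ℤ → ℤ) : Finset ℤ :=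
  (Finset.Ioo a x).filter (fun v => p v ≤ a ∧ x < q v)

theorem Rd.topR_le (H : Rd N a x b p q p' q' WR WL UR m f) : (topR x b p q).card ≤ 1 := by
  have := H.a0; have := H.ax; have := H.xb; have := H.bN
  apply card_le_one_of_lt
  intro u hu v hv huv
  unfold topR at hu hv
  rw [Finset.mem_filter, Finset.mem_Ioo] at hu hv
  have := H.lam.l1 v u (by omega) (by omega) (by omega) huv
  omega

theorem Rd.topL_le (H : Rd N a x b p q p' q' WR WL UR m f) : (topL a x p q).card ≤ 1 := by
  have := H.a0; have := H.ax; have := H.xb; have := H.bN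
  apply card_le_one_of_lt
  intro u hu v hv huv
  unfold topL at hu hv
  rw [Finset.mem_filter, Finset.mem_Ioo] at hu hv
  have := H.lam.l2 u v (by omega) (by omega) huv (by omega)
  omega

theorem Rd.anc (H : Rd N a x b p q p' q' WR WL UR m f) :
    ((Finset.Ioo 0 N).filter (fun v => v ≠ x ∧ p v < x ∧ x < q v)).card
      ≤ ((Finset.Ioo a x).filter (fun v => x ≤ qJ b q v)).card
        + ((Finset.Ioo x b).filter (fun v => pJ a p v ≤ x)).card + (dead a x q).card + 1 := by
  have := H.a0; have := H.ax; have := H.xb; have := H.bN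
  have hs : (Finset.Ioo 0 N).filter (fun v => v ≠ x ∧ p v < x ∧ x < q v) ⊆
      insert b (((Finset.Ioo a x).filter (fun v => x ≤ qJ b q v) ∪
        (Finset.Ioo x b).filter (fun v => pJ a p v ≤ x)) ∪ dead a x q) := by
    intro v hv
    have := H.inv v
    unfold dead pJ qJ
    simp only [Finset.mem_insert, Finset.mem_union, Finset.mem_filter, Finset.mem_Ioo,
      Finset.mem_Ioc] at hv ⊢
    omega
  have h1 := Finset.card_le_card hs
  have h2 := Finset.card_insert_le b (((Finset.Ioo a x).filter (fun v => x ≤ qJ b q v) ∪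
        (Finset.Ioo x b).filter (fun v => pJ a p v ≤ x)) ∪ dead a x q)
  have h3 := Finset.card_union_le ((Finset.Ioo a x).filter (fun v => x ≤ qJ b q v) ∪
        (Finset.Ioo x b).filter (fun v => pJ a p v ≤ x)) (dead a x q)
  have h4 := Finset.card_union_le ((Finset.Ioo a x).filter (fun v => x ≤ qJ b q v))
        ((Finset.Ioo x b).filter (fun v => pJ a p v ≤ x))
  omega

theorem Rd.skipR (H : Rd N a x b p q p' q' WR WL UR m f) (K : Finset ℤ)
    (hK : ∀ v ∈ K, x < v ∧ v < b ∧ pJ a p v = a ∧ v ∉ WR.filter (fun y => q y < b) ∧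
      ∀ y ∈ WR.filter (fun y => q y < b), qJ b q y ≠ v) : K.card ≤ (dead a x q).card + 3 := by
  have := H.a0; have := H.ax; have := H.xb; have := H.bN
  have hs : K ⊆ insert f ((topR x b p q ∪ UR.filter (fun r => m r ≤ a)) ∪
      UR.filter (fun r => m r ∈ topL a x p q)) := by
    intro v hv
    obtain ⟨v1, v2, v3, c, d⟩ := hK v hv
    unfold pJ at v3
    unfold topR topL
    simp only [Finset.mem_insert, Finset.mem_union, Finset.mem_filter, Finset.mem_Ioo]
    by_cases g : v ∈ WR
    · have : ¬ q v < b := fun h => c (Finset.mem_filter.2 ⟨g, h⟩)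
      exact Or.inr (Or.inl (Or.inl (by omega)))
    · rcases (H.sp.orr v v1 (by omega) g (fun y hy e =>
        d y (Finset.mem_filter.2 ⟨hy, by omega⟩) (by unfold qJ; omega))).2.2 (by omega) with k | k
      · have := H.sp.ur v k
        by_cases g2 : m v ≤ a
        · exact Or.inr (Or.inl (Or.inr ⟨k, g2⟩))
        · exact Or.inr (Or.inr ⟨k, by omega⟩)
      · exact Or.inl k
  have h1 := Finset.card_le_card hs
  have h2 := Finset.card_insert_le f ((topR x b p q ∪ UR.filter (fun r => m r ≤ a)) ∪
      UR.filter (fun r => m r ∈ topL a x p q))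
  have h3 := Finset.card_union_le (topR x b p q ∪ UR.filter (fun r => m r ≤ a))
      (UR.filter (fun r => m r ∈ topL a x p q))
  have h4 := Finset.card_union_le (topR x b p q) (UR.filter (fun r => m r ≤ a))
  have h5 := H.topR_le
  have h6 := H.topL_le
  have h7 := card_le_of_lt_ne (UR.filter (fun r => m r ≤ a)) (dead a x q) m (by
      intro v hv
      rw [Finset.mem_filter] at hv
      have := H.sp.ur v hv.1
      unfold dead
      rw [Finset.mem_filter, Finset.mem_Ioc]
      omega) (fun u hu v hv huv e => by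
      have := H.sp.inj u (Finset.mem_filter.1 hu).1 v (Finset.mem_filter.1 hv).1 e
      omega)
  have h8 := card_le_of_lt_ne (UR.filter (fun r => m r ∈ topL a x p q)) (topL a x p q) m
    (fun v hv => (Finset.mem_filter.1 hv).2) (fun u hu v hv huv e => by
      have := H.sp.inj u (Finset.mem_filter.1 hu).1 v (Finset.mem_filter.1 hv).1 e
      omega)
  omega

theorem Rd.skipL (H : Rd N a x b p q p' q' WR WL UR m f) (K : Finset ℤ)
    (hK : ∀ v ∈ K, a < v ∧ v < x ∧ qJ b q v = b ∧ v ∉ WL.filter (fun y => a < p y) ∧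
      ∀ y ∈ WL.filter (fun y => a < p y), pJ a p y ≠ v) : K.card ≤ 4 := by
  have := H.a0; have := H.ax; have := H.xb; have := H.bN
  have hs : K ⊆ insert f (topL a x p q ∪ (insert b (topR x b p q)).image m) := by
    intro v hv
    obtain ⟨v1, v2, v3, c, d⟩ := hK v hv
    unfold qJ at v3
    unfold topR topL
    simp only [Finset.mem_insert, Finset.mem_union, Finset.mem_filter, Finset.mem_Ioo,
      Finset.mem_image]
    by_cases g : v ∈ WL
    · have : ¬ a < p v := fun h => c (Finset.mem_filter.2 ⟨g, h⟩)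
      exact Or.inr (Or.inl (by omega))
    · rcases (H.sp.ol v v2 (by omega) g (fun y hy e =>
        d y (Finset.mem_filter.2 ⟨hy, by omega⟩) (by unfold pJ; omega))).2.2 (by omega) with k | k
      · obtain ⟨r, hr, e⟩ := k
        have k1 := H.sp.ur r hr
        have := H.inv r
        rw [e] at k1
        exact Or.inr (Or.inr ⟨r, by omega, e⟩)
      · exact Or.inl k
  have h1 := Finset.card_le_card hs
  have h2 := Finset.card_insert_le f (topL a x p q ∪ (insert b (topR x b p q)).image m)
  have h3 := Finset.card_union_le (topL a x p q) ((insert b (topR x b p q)).image m)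
  have h4 : ((insert b (topR x b p q)).image m).card ≤ _ := Finset.card_image_le
  have h5 := Finset.card_insert_le b (topR x b p q)
  have h6 := H.topR_le
  have h7 := H.topL_le
  omega

theorem Rd.deadle (H : Rd N a x b p q p' q' WR WL UR m f) :
    (dead a x q).card ≤ 2 * (WL.filter (fun y => y ≤ a)).card + Th p a x b + 4 := by
  have := H.a0; have := H.ax; have := H.xb; have := H.bN
  have hs : dead a x q ⊆ insert f (insert a ((WL.filter (fun y => y ≤ a) ∪
      (WL.filter (fun y => y ≤ a) ∪ topL a x p q).image p) ∪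
      (insert b ((Finset.Ioo x b).filter (fun w => p w < a))).image m)) := by
    intro v hv
    unfold dead at hv
    rw [Finset.mem_filter, Finset.mem_Ioc] at hv
    unfold topL
    simp only [Finset.mem_insert, Finset.mem_union, Finset.mem_filter, Finset.mem_Ioo,
      Finset.mem_image]
    by_cases g : v ∈ WL
    · exact Or.inr (Or.inr (Or.inl (Or.inl ⟨g, hv.1.2⟩)))
    by_cases g2 : ∀ y ∈ WL, p y ≠ v
    · rcases (H.sp.ol v (by omega) hv.1.1 g g2).2.2 hv.2 with k | k
      · obtain ⟨r, hr, e⟩ := k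
        have k1 := H.sp.ur r hr
        have := H.inv r
        have := H.lam.pl v (by omega) (by omega)
        rw [e] at k1
        by_cases g3 : v = a
        · exact Or.inr (Or.inl g3)
        · exact Or.inr (Or.inr (Or.inr ⟨r, by omega, e⟩))
      · exact Or.inl k
    · push Not at g2
      obtain ⟨y, hy, e⟩ := g2
      have := H.sp.wl y hy
      refine Or.inr (Or.inr (Or.inl (Or.inr ⟨y, ?_, e⟩)))
      by_cases g3 : y ≤ a
      · exact Or.inl ⟨hy, g3⟩
      · exact Or.inr (by omega)
  have h1 := Finset.card_le_card hs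
  have h2 := le_trans h1 (Finset.card_insert_le _ _)
  have h3 := le_trans h2 (Nat.add_le_add_right (Finset.card_insert_le _ _) _)
  have h4 := Finset.card_union_le (WL.filter (fun y => y ≤ a) ∪
      (WL.filter (fun y => y ≤ a) ∪ topL a x p q).image p)
      ((insert b ((Finset.Ioo x b).filter (fun w => p w < a))).image m)
  have h5 := Finset.card_union_le (WL.filter (fun y => y ≤ a))
      ((WL.filter (fun y => y ≤ a) ∪ topL a x p q).image p)
  have h6 : ((WL.filter (fun y => y ≤ a) ∪ topL a x p q).image p).card ≤ _ := Finset.card_image_le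
  have h7 := Finset.card_union_le (WL.filter (fun y => y ≤ a)) (topL a x p q)
  have h8 : ((insert b ((Finset.Ioo x b).filter (fun w => p w < a))).image m).card ≤ _ :=
    Finset.card_image_le
  have h9 := Finset.card_insert_le b ((Finset.Ioo x b).filter (fun w => p w < a))
  have h10 := H.topL_le
  unfold Th
  omega

theorem Rd.psi (H : Rd N a x b p q p' q' WR WL UR m f) :
    Psi q' a + (WL.filter (fun y => y ≤ a)).card ≤ Psi q a := by
  have := H.a0; have := H.ax; have := H.xb; have := H.bN
  have h1 := card_le_of_lt_ne (WL.filter (fun y => y ≤ a))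
    ((Finset.Ioc 0 a).filter (fun v => a < q v) \ (Finset.Ioc 0 a).filter (fun v => a < q' v)) p
    (by
      intro y hy
      rw [Finset.mem_filter] at hy
      have w := H.sp.wl y hy.1
      have py := H.lam.pl y (by omega) (by omega)
      have l := H.lam.l4 y (by omega) (by omega) (by omega)
      simp only [Finset.mem_sdiff, Finset.mem_filter, Finset.mem_Ioc]
      omega) (by
      intro u hu v hv huv e
      have w1 := H.sp.wl u (Finset.mem_filter.1 hu).1
      have w2 := H.sp.wl v (Finset.mem_filter.1 hv).1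
      rw [e] at w1
      omega)
  have hs : (Finset.Ioc 0 a).filter (fun v => a < q' v) ⊆
      (Finset.Ioc 0 a).filter (fun v => a < q v) := by
    intro v hv
    rw [Finset.mem_filter, Finset.mem_Ioc] at hv ⊢
    by_cases g : v ∈ WL
    · have := H.sp.wl v g
      omega
    by_cases g2 : ∀ y ∈ WL, p y ≠ v
    · have := H.sp.ol v (by omega) hv.1.1 g g2
      omega
    · push Not at g2
      obtain ⟨y, hy, e⟩ := g2
      have w := H.sp.wl y hy
      have l := H.lam.l4 y (by omega) (by omega) (by omega)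
      rw [e] at l
      omega
  have h2 := Finset.card_sdiff_add_card_eq_card hs
  unfold Psi
  omega

theorem Rd.theta (H : Rd N a x b p q p' q' WR WL UR m f) :
    Th p' a a x + Th p a x b ≤ Th p a a b + 1 := by
  have := H.a0; have := H.ax; have := H.xb; have := H.bN
  have hs : (Finset.Ioo a x).filter (fun w => p' w < a) ⊆
      (Finset.Ioo a x).filter (fun w => p w < a) ∪ WL.filter (fun u => a < u ∧ p (p u) < a) := by
    intro v hv
    simp only [Finset.mem_union, Finset.mem_filter, Finset.mem_Ioo] at hv ⊢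
    by_cases g : v ∈ WL
    · have := H.sp.wl v g
      exact Or.inr ⟨g, by omega⟩
    by_cases g2 : ∀ y ∈ WL, p y ≠ v
    · have := H.sp.ol v (by omega) (by omega) g g2
      exact Or.inl (by omega)
    · push Not at g2
      obtain ⟨y, hy, e⟩ := g2
      have w := H.sp.wl y hy
      rw [e] at w
      exact Or.inl (by omega)
  have h1 := le_trans (Finset.card_le_card hs) (Finset.card_union_le _ _)
  have h2 : (WL.filter (fun u => a < u ∧ p (p u) < a)).card ≤ 1 := by
    apply card_le_one_of_lt
    intro u hu v hv huv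
    rw [Finset.mem_filter] at hu hv
    have w1 := H.sp.wl u hu.1
    have w2 := H.sp.wl v hv.1
    have l := H.lam.l2 u v (by omega) (by omega) huv (by omega)
    have ne : p v ≠ u := fun e => w2.2.2.2.2.1 (e ▸ hu.1)
    have pv := H.lam.pl v (by omega) (by omega)
    have l' := H.lam.l2 u (p v) (by omega) (by omega) (by omega) (by omega)
    omega
  have h3 : Th p a a x + Th p a x b ≤ Th p a a b := by
    unfold Th
    simp only [Finset.card_filter]
    rw [sum_Ioo_split a x b H.ax H.xb]
    omega
  unfold Th at *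
  omega

theorem Rd.after (H : Rd N a x b p q p' q' WR WL UR m f) :
    (∀ v, x < v → v < N → x ≤ p' v) ∧ (∀ v, b < v → v < N → p' v = p v ∧ q' v = q v) := by
  have := H.a0; have := H.ax; have := H.xb; have := H.bN
  constructor
  · intro v v1 v2
    by_cases g : v ∈ WR
    · have := H.sp.wr v g
      omega
    by_cases g2 : ∀ y ∈ WR, q y ≠ v
    · have := H.sp.orr v v1 v2 g g2
      omega
    · push Not at g2
      obtain ⟨y, hy, e⟩ := g2
      have w := H.sp.wr y hy
      rw [e] at w
      omega
  · intro v v1 v2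
    have i := H.inv v v1 v2
    have := H.sp.orr v (by omega) v2 (fun g => by have := H.sp.wr v g; omega) (fun y hy e => by
      have w := H.sp.wr y hy
      have l := H.lam.l3 y (by omega) (by omega) (by omega)
      rw [e] at l
      omega)
    omega

theorem Rd.round (H : Rd N a x b p q p' q' WR WL UR m f) (V : LV) (Z : ℕ)
    (pos : ∀ u v, 0 ≤ u → u < v → 1 ≤ V.lev u v)
    (zlt : ∀ u v, u ≤ v → v ≤ N → zn (V.lev u v) < Z) {aL aR : ℤ → ℕ}
    (A : Age a b (pJ a p) (qJ b q) aL aR) :
    ∃ a1 b1 a2 b2, Age a x (pJ a p') (qJ x q') a1 b1 ∧ Age x b (pJ x p') (qJ b q') a2 b2 ∧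
      ((Finset.Ioo 0 N).filter (fun v => v ≠ x ∧ p v < x ∧ x < q v)).card
        + Phi V Z a x (pJ a p') (qJ x q') a1 b1 + Phi V Z x b (pJ x p') (qJ b q') a2 b2
        + 44 * Psi q' a + 22 * Th p' a a x
      ≤ Phi V Z a b (pJ a p) (qJ b q) aL aR + 44 * Psi q a + 22 * Th p a a b + 832 * Z + 7798 := by
  have := H.a0; have := H.ax; have := H.xb; have := H.bN
  have C : Cx V a b x (pJ a p) (qJ b q) Z := ⟨H.ax, H.xb, H.lam.restr H.a0 H.bN,
    fun u v h1 h2 h3 => pos u v (by omega) h2, fun u v h1 h2 h3 => zlt u v h2 (by omega)⟩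
  obtain ⟨a1, b1, a2, b2, g1, g2, g3⟩ := C.split A H.sideL H.side H.skipL H.skipR
  refine ⟨a1, b1, a2, b2, g1, g2, ?_⟩
  have h1 := H.anc
  have h4 := H.deadle
  have h5 := H.psi
  have h6 := H.theta
  omega

end

end Pool.Agent.Lib.MP_3ecc11_lc
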