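import Pool.Agent.Lib.MP_3ecc11_lc.Count

set_option autoImplicit false
set_option linter.unusedVariables false

namespace Pool.Agent.Lib.MP_3ecc11_lc

/-- effect of splaying `x` on the keys to its right, inside a piece with right end `R` -/
structure Side (R x : ℤ) (p q p' q' : ℤ → ℤ) (W : Finset ℤ) : Prop where
  win : ∀ y ∈ W, x < y ∧ y < R ∧ p y ≤ x ∧ q y < R ∧ q y ∉ W ∧ p' y = x ∧ q' y = q (q y) ∧
    p' (q y) = y ∧ q' (q y) = q (q y)
  oth : ∀ v, x < v → v < R → v ∉ W → (∀ y ∈ W, q y ≠ v) → p' v = max (p v) x ∧ q' v = q v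

/-- ages of the exposed nodes -/
structure Age (L R : ℤ) (p q : ℤ → ℤ) (aL aR : ℤ → ℕ) : Prop where
  bL : ∀ v, aL v ≤ 3
  bR : ∀ v, aR v ≤ 3
  mL : ∀ u v, L < u → u < v → v < R → p u = L → p v = L → aL u ≤ aL v
  mR : ∀ u v, L < u → u < v → v < R → q u = R → q v = R → aR v ≤ aR u

def cls (L : ℤ) (p : ℤ → ℤ) (aL : ℤ → ℕ) (v : ℤ) : ℕ := if p v = L then aL v + 1 else 0

def newR (W : Finset ℤ) (aR : ℤ → ℕ) (v : ℤ) : ℕ := if v ∈ W then 3 else aR v

def pre (V : LV) (L R x : ℤ) (p q : ℤ → ℤ) (aL aR : ℤ → ℕ) (v : ℤ) : ℕ :=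
  if p v ≤ x then
    (if q v = R then 8 * zn (ww V x R v)
     else 8 * zn (ww V x R v) + gc (cls L p aL v) +
       ex (ww V x R v) (V.lev v (q v)) (4 - cls L p aL v))
  else pot V x R (p v) (q v) 0 (aR v) v

section
variable {V : LV} {L R x : ℤ} {p q p' q' : ℤ → ℤ} {Z : ℕ} {aL aR : ℤ → ℕ} {W : Finset ℤ}

open Classical in
theorem Cx.stepA (C : Cx V L R x p q Z) (A : Age L R p q aL aR) {v : ℤ} (v1 : x < v)
    (v2 : v < R) :
    pre V L R x p q aL aR v ≤ pot V L R (p v) (q v) (aL v) (aR v) v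
      + 32 * (if PN V L R x p q v then 1 else 0) + 128 * (if PA V L R x p q v then 1 else 0)
      + 128 * (if PB V L R x p q v then 1 else 0) + 160 * (if PP V R x p q v then 1 else 0) := by
  have hL := C.hL
  have p1 := C.lam.pl v (by omega) v2
  have w1 := ww_le V (R := R) hL.le v1.le
  have w2 := C.ww_pos v1 v2
  have w3 := zn_mono w1
  have w4 : ww V x R v ≤ V.lev x v := min_le_left _ _
  have kr1 := C.pos v (q v) (by omega) (by omega) (by omega)
  have kl1 := C.pos (p v) v (by omega) (by omega) (by omega)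
  have key := C.key v1 v2
  have hN : ww V x R v < ww V L R v → lo (ww V x R v) < V.lev (max (p v) x) v →
      lo (ww V x R v) < V.lev v (q v) → 32 ≤ 32 * (if PN V L R x p q v then 1 else 0) :=
    fun a b c => by rw [if_pos ⟨a, b, c⟩]
  have hA : lo (V.lev v (q v)) < ww V L R x → ww V x R v ≤ V.lev v (q v) →
      lo (V.lev v (q v)) < ww V x R v → V.lev x (max (p v) x) ≤ lo (V.lev v (q v)) →
      128 ≤ 128 * (if PA V L R x p q v then 1 else 0) :=
    fun a b c d => by rw [if_pos ⟨a, b, c, d⟩]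
  have hB : lo (V.lev (p v) v) < ww V L R x → ww V x R v ≤ V.lev (p v) v →
      lo (V.lev (p v) v) < ww V x R v → V.lev (q v) R ≤ lo (V.lev (p v) v) → x < p v →
      128 ≤ 128 * (if PB V L R x p q v then 1 else 0) :=
    fun a b c d e => by rw [if_pos ⟨a, b, c, d, e⟩]
  have hP : p v ≤ x → ww V x R v ≤ lo (V.lev v (q v)) →
      160 ≤ 160 * (if PP V R x p q v then 1 else 0) :=
    fun a b => by rw [if_pos ⟨a, b⟩]
  generalize 32 * (if PN V L R x p q v then 1 else 0) = nN at *
  generalize 128 * (if PA V L R x p q v then 1 else 0) = nA at *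
  generalize 128 * (if PB V L R x p q v then 1 else 0) = nB at *
  generalize 160 * (if PP V R x p q v then 1 else 0) = nP at *
  have sx := V.self x
  have sR := V.self R
  by_cases g : p v ≤ x
  · rw [max_eq_right g] at hN hA
    by_cases t : q v = R
    · unfold pre pot
      rw [if_pos g, if_pos t]
      split_ifs <;> omega
    · by_cases o : p v = L
      · have := numA1 (ww V L R v) (ww V x R v) (V.lev v (q v)) (3 - aL v) (V.lev x v)
          (ww V L R x) nN nA nP w1 w2 kr1 (by omega) w4 (fun a b => (key _ a b).1) hN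
          (fun a b c => hA a b c (by omega)) (hP g)
        unfold pre pot cls gc
        rw [if_pos g, if_neg t, if_pos o, if_pos o, if_neg t, if_neg (by omega)]
        have e1 : 4 - (aL v + 1) = 3 - aL v := by omega
        rw [e1, Nat.add_sub_cancel]
        omega
      · have s1 : V.lev x v ≤ V.lev (p v) v := V.sub g v1.le le_rfl
        have s2 : V.lev L (p v) ≤ V.lev L x := V.sub le_rfl (by omega) g
        have := numA2 (ww V L R v) (ww V x R v) (V.lev (p v) v) (V.lev v (q v)) (V.lev L (p v))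
          (V.lev (q v) R) (V.lev x v) (ww V L R x) nN nA nP w1 w2 kr1 w4 s1
          (fun a b => ⟨(key _ a b).1, le_trans s2 (key _ a b).2⟩) hN
          (fun a b c => hA a b c (by omega)) (hP g)
        unfold pre pot cls gc
        rw [if_pos g, if_neg t, if_neg o, if_neg o, if_neg t, if_pos rfl]
        simp only [Nat.sub_zero]
        omega
  · rw [max_eq_left (by omega)] at hN hA
    have o1 : ¬ p v = L := by omega
    have o2 : ¬ p v = x := by omega
    by_cases t : q v = R
    · have s1 : V.lev (p v) v ≤ V.lev x v := V.sub (by omega) (by omega) le_rfl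
      have := numA4b (ww V L R v) (ww V x R v) (V.lev (p v) v) (V.lev v (q v)) (3 - aR v)
        (ww V L R x) nN nB w1 kl1 (by omega) (by rw [t]; unfold ww; omega)
        (fun a b => (key _ a b).1) hN
        (fun a b c => hB a b c (by rw [t]; omega) (by omega))
      unfold pre pot
      rw [if_neg g, if_neg o1, if_neg o2, if_pos t, if_pos t]
      omega
    · have s2 := V.betw L x (p v) hL.le (by omega)
      have := numA4a (ww V L R v) (ww V x R v) (V.lev (p v) v) (V.lev v (q v)) (V.lev L (p v))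
        (V.lev x (p v)) (V.lev (q v) R) (ww V L R x) nN nA nB w1
        (fun a b c => ⟨(key _ a b).1, by have := (key _ a b).2; omega⟩)
        (fun a b => (key _ a b).1) hN hA (fun a b c d => hB a b c d (by omega))
      unfold pre pot
      rw [if_neg g, if_neg o1, if_neg o2, if_neg t, if_neg t]
      omega

open Classical in
theorem Cx.sumA (C : Cx V L R x p q Z) (A : Age L R p q aL aR) :
    ∑ v ∈ Finset.Ioo x R, pre V L R x p q aL aR v
      + ∑ c ∈ Finset.Ioo x R ×ˢ Finset.range Z, bt V x R c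
    ≤ ∑ v ∈ Finset.Ioo x R, pot V L R (p v) (q v) (aL v) (aR v) v
      + ∑ c ∈ Finset.Ioo x R ×ˢ Finset.range Z, bt V L R c
      + 512 * (hi (ww V L R x) + 1) + 160 * Z := by
  have h := Finset.sum_le_sum (s := Finset.Ioo x R)
    (fun v hv => C.stepA A (Finset.mem_Ioo.1 hv).1 (Finset.mem_Ioo.1 hv).2)
  simp only [Finset.sum_add_distrib, ← Finset.mul_sum, ← Finset.card_filter] at h
  have h1 := C.cntN
  have h2 := C.cntA
  have h3 := C.cntB
  have h4 := C.cntP
  linarith

theorem cls_le (A : Age L R p q aL aR) (v : ℤ) : cls L p aL v ≤ 4 := by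
  have := A.bL v
  unfold cls
  split_ifs <;> omega

theorem Cx.cls_mono (C : Cx V L R x p q Z) (A : Age L R p q aL aR) {u v : ℤ} (u1 : x < u)
    (huv : u ≤ v) (v2 : v < R) (hv : p v ≤ x) : cls L p aL u ≤ cls L p aL v := by
  have hL := C.hL
  rcases eq_or_lt_of_le huv with h | h
  · rw [h]
  · have l := C.lam.l1 v u (by omega) v2 (by omega) h
    have p2 := C.lam.pl v (by omega) v2
    have m := A.mL u v (by omega) h v2
    unfold cls
    split_ifs <;> omega

theorem Cx.win_ord (C : Cx V L R x p q Z) (S : Side R x p q p' q' W) {u v : ℤ} (hu : u ∈ W)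
    (hv : v ∈ W) (huv : u < v) : q u < v ∧ q (q u) ≤ v := by
  have hL := C.hL
  obtain ⟨a1, a2, a3, a4, a5, -⟩ := S.win u hu
  obtain ⟨b1, b2, b3, b4, b5, -⟩ := S.win v hv
  have l := C.lam.l1 v u (by omega) b2 (by omega) huv
  have ne : q u ≠ v := fun h => a5 (h ▸ hv)
  have p1 := C.lam.pl u (by omega) a2
  have l' := C.lam.l1 v (q u) (by omega) b2 (by omega) (by omega)
  omega

theorem pre_ge (V : LV) (L R x : ℤ) (p q : ℤ → ℤ) (aL aR : ℤ → ℕ) (v : ℤ) (h : p v ≤ x) :
    8 * zn (ww V x R v) ≤ pre V L R x p q aL aR v := by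
  unfold pre
  rw [if_pos h]
  split_ifs <;> omega

def PJL (V : LV) (R x : ℤ) (q : ℤ → ℤ) (y : ℤ) : Prop :=
  ww V x R (q y) ≤ V.lev (q y) (q (q y)) ∧ V.lev x y ≤ lo (V.lev (q y) (q (q y))) ∧
    lo (V.lev (q y) (q (q y))) < ww V x R (q y)

def PJR (V : LV) (R x : ℤ) (q : ℤ → ℤ) (y : ℤ) : Prop :=
  ww V x R (q y) ≤ V.lev y (q y) ∧ V.lev (q (q y)) R ≤ lo (V.lev y (q y)) ∧
    lo (V.lev y (q y)) < ww V x R (q y)

open Classical in
theorem Cx.pairB (C : Cx V L R x p q Z) (A : Age L R p q aL aR) (S : Side R x p q p' q' W)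
    {y : ℤ} (hy : y ∈ W) :
    pot V x R (p' y) (q' y) (min (cls L p aL y) 3) (newR W aR y) y
      + pot V x R (p' (q y)) (q' (q y)) (min (cls L p aL (q y)) 3) (newR W aR (q y)) (q y) + 2
    ≤ pre V L R x p q aL aR y + pre V L R x p q aL aR (q y)
      + 580 * (if q (q y) = R then 1 else 0)
      + 580 * (if cls L p aL y ≠ cls L p aL (q y) then 1 else 0)
      + 128 * (if PJL V R x q y then 1 else 0) + 128 * (if PJR V R x q y then 1 else 0) := by
  have hL := C.hL
  obtain ⟨a1, a2, a3, a4, a5, a6, a7, a8, a9⟩ := S.win y hy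
  have p1 := C.lam.pl y (by omega) a2
  have p2 := C.lam.pl (q y) (by omega) a4
  have l3 := C.lam.l3 y (by omega) a2 a4
  have g1 := pre_ge V L R x p q aL aR y a3
  have g2 := pre_ge V L R x p q aL aR (q y) (by omega)
  have c1 := pot_le V x R (p' y) (q' y) (min (cls L p aL y) 3) (newR W aR y) y
  have c2 := pot_le V x R (p' (q y)) (q' (q y)) (min (cls L p aL (q y)) 3) (newR W aR (q y)) (q y)
  by_cases t : q (q y) = R
  · rw [if_pos t]; omega
  by_cases e : cls L p aL y ≠ cls L p aL (q y)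
  · rw [if_pos e]; omega
  rw [if_neg t, if_neg e]
  have e' : cls L p aL (q y) = cls L p aL y := by omega
  have j1 : jn (ww V x R (q y)) (V.lev (q y) (q (q y))) (V.lev x y)
      = 128 * (if PJL V R x q y then 1 else 0) := by
    unfold jn PJL; split_ifs <;> rfl
  have j2 : jn (ww V x R (q y)) (V.lev y (q y)) (V.lev (q (q y)) R)
      = 128 * (if PJR V R x q y then 1 else 0) := by
    unfold jn PJR; split_ifs <;> rfl
  have b1 := V.betw x y (q y) a1.le (by omega)
  have b2 := V.betw y (q y) R (by omega) (by omega)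
  have b3 := V.betw y (q y) (q (q y)) (by omega) (by omega)
  have n := numPair (ww V x R y) (ww V x R (q y)) (V.lev y (q y)) (V.lev (q y) (q (q y)))
    (cls L p aL y) (cls_le A y) (by unfold ww; omega) (by unfold ww; omega)
  rw [a6, a7, a8, a9, ← j1, ← j2]
  unfold pre pot hid
  rw [if_pos rfl, if_neg t, if_neg (by omega : ¬ y = x), if_neg t, if_pos a3,
    if_neg (by omega : ¬ q y = R), if_pos (by omega : p (q y) ≤ x), if_neg t, e', b3]
  omega

open Classical in
theorem Cx.restB (C : Cx V L R x p q Z) (A : Age L R p q aL aR) (S : Side R x p q p' q' W)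
    {v : ℤ} (v1 : x < v) (v2 : v < R) (h1 : v ∉ W) (h2 : ∀ y ∈ W, q y ≠ v) :
    pot V x R (p' v) (q' v) (min (cls L p aL v) 3) (newR W aR v) v + (if p v ≤ x then 1 else 0)
    ≤ pre V L R x p q aL aR v + 21 * (if p v = L then 1 else 0)
      + 290 * (if p v ≤ x ∧ q v = R then 1 else 0) := by
  obtain ⟨e1, e2⟩ := S.oth v v1 v2 h1 h2
  by_cases g : p v ≤ x
  · by_cases t : q v = R
    · have c1 := pot_le V x R (p' v) (q' v) (min (cls L p aL v) 3) (newR W aR v) v
      have g1 := pre_ge V L R x p q aL aR v g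
      rw [if_pos g, if_pos (And.intro g t)]
      omega
    · have n := numSingle (ww V x R v) (V.lev v (q v)) (cls L p aL v) (cls_le A v)
      have m : (if cls L p aL v = 0 then 0 else 21) ≤ 21 * (if p v = L then 1 else 0) := by
        unfold cls; split_ifs <;> omega
      rw [e1, e2, max_eq_right g]
      unfold pre pot
      rw [if_pos rfl, if_neg t, if_pos g, if_pos g, if_neg t]
      omega
  · rw [e1, e2, max_eq_left (by omega), if_neg g]
    unfold pre newR
    rw [if_neg g, if_neg h1]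
    unfold pot
    rw [if_neg (by omega : ¬ p v = x), if_neg (by omega : ¬ p v = x)]
    omega

open Classical in
theorem Cx.cntE1 (C : Cx V L R x p q Z) (S : Side R x p q p' q' W) :
    (W.filter (fun y => q (q y) = R)).card ≤ 1 := by
  apply card_le_one_of_lt
  intro u hu v hv huv
  obtain ⟨hu1, hu2⟩ := Finset.mem_filter.1 hu
  obtain ⟨hv1, hv2⟩ := Finset.mem_filter.1 hv
  have := C.win_ord S hu1 hv1 huv
  have := (S.win v hv1).2.1
  omega

open Classical in
theorem Cx.cntE2 (C : Cx V L R x p q Z) (A : Age L R p q aL aR) (S : Side R x p q p' q' W) :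
    (W.filter (fun y => cls L p aL y ≠ cls L p aL (q y))).card ≤ 5 := by
  have hL := C.hL
  have := card_le_of_lt_ne (W.filter (fun y => cls L p aL y ≠ cls L p aL (q y))) (Finset.range 5)
    (cls L p aL) (fun v _ => Finset.mem_range.2 (Nat.lt_succ_of_le (cls_le A v))) (by
      intro u hu v hv huv
      obtain ⟨hu1, hu2⟩ := Finset.mem_filter.1 hu
      obtain ⟨hv1, hv2⟩ := Finset.mem_filter.1 hv
      have o := C.win_ord S hu1 hv1 huv
      obtain ⟨a1, a2, a3, a4, -⟩ := S.win u hu1
      obtain ⟨b1, b2, b3, b4, -⟩ := S.win v hv1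
      have p1 := C.lam.pl u (by omega) a2
      have l3 := C.lam.l3 u (by omega) a2 a4
      have m1 := C.cls_mono A a1 p1.2.2.1.le a4 (by omega)
      have m2 := C.cls_mono A (u := q u) (by omega) o.1.le b2 b3
      omega)
  simpa using this

open Classical in
theorem Cx.cntE3 (C : Cx V L R x p q Z) (S : Side R x p q p' q' W) :
    (W.filter (PJL V R x q)).card ≤ Z := by
  have hL := C.hL
  have := card_le_of_lt_ne (W.filter (PJL V R x q)) (Finset.range Z)
    (fun y => zn (V.lev (q y) (q (q y)))) (by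
      intro v hv
      obtain ⟨b1, b2, b3, b4, -⟩ := S.win v (Finset.mem_filter.1 hv).1
      have p1 := C.lam.pl v (by omega) b2
      have p2 := C.lam.pl (q v) (by omega) b4
      exact Finset.mem_range.2 (C.zlt _ _ (by omega) (by omega) (by omega))) (by
      intro u hu v hv huv e
      obtain ⟨hu1, m1, m2, m3⟩ := Finset.mem_filter.1 hu
      obtain ⟨hv1, n1, n2, n3⟩ := Finset.mem_filter.1 hv
      have o := C.win_ord S hu1 hv1 huv
      obtain ⟨a1, a2, a3, a4, -⟩ := S.win u hu1
      have p1 := C.lam.pl u (by omega) a2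
      have e' : lo (V.lev (q u) (q (q u))) = lo (V.lev (q v) (q (q v))) := by
        unfold lo; rw [e]
      have s : V.lev x (q u) ≤ V.lev x v := V.sub le_rfl (by omega) (by omega)
      unfold ww at m3
      omega)
  simpa using this

open Classical in
theorem Cx.cntE4 (C : Cx V L R x p q Z) (S : Side R x p q p' q' W) :
    (W.filter (PJR V R x q)).card ≤ Z := by
  have hL := C.hL
  have := card_le_of_lt_ne (W.filter (PJR V R x q)) (Finset.range Z)
    (fun y => zn (V.lev y (q y))) (by
      intro v hv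
      obtain ⟨b1, b2, b3, b4, -⟩ := S.win v (Finset.mem_filter.1 hv).1
      have p1 := C.lam.pl v (by omega) b2
      exact Finset.mem_range.2 (C.zlt _ _ (by omega) (by omega) (by omega))) (by
      intro u hu v hv huv e
      obtain ⟨hu1, m1, m2, m3⟩ := Finset.mem_filter.1 hu
      obtain ⟨hv1, n1, n2, n3⟩ := Finset.mem_filter.1 hv
      have o := C.win_ord S hu1 hv1 huv
      obtain ⟨b1, b2, b3, b4, -⟩ := S.win v hv1
      have p1 := C.lam.pl v (by omega) b2
      have e' : lo (V.lev u (q u)) = lo (V.lev v (q v)) := by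
        unfold lo; rw [e]
      have s : V.lev (q v) R ≤ V.lev (q (q u)) R := V.sub (by omega) (by omega) le_rfl
      unfold ww at n3
      omega)
  simpa using this

theorem Cx.q_inj (C : Cx V L R x p q Z) (S : Side R x p q p' q' W) :
    ∀ u ∈ W, ∀ v ∈ W, q u = q v → u = v := by
  intro u hu v hv e
  have a := (S.win u hu).2.2.2.2.2.2.2.1
  have b := (S.win v hv).2.2.2.2.2.2.2.1
  rw [e] at a
  omega

/-- the unmatched keys of the right piece -/
noncomputable def rest (R x : ℤ) (q : ℤ → ℤ) (W : Finset ℤ) : Finset ℤ :=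
  (Finset.Ioo x R \ W) \ W.image q

theorem mem_rest {v : ℤ} : v ∈ rest R x q W ↔ x < v ∧ v < R ∧ v ∉ W ∧ ∀ y ∈ W, q y ≠ v := by
  unfold rest
  simp only [Finset.mem_sdiff, Finset.mem_Ioo, Finset.mem_image, not_exists, not_and, and_assoc,
    ne_eq]

theorem Cx.sum_split (C : Cx V L R x p q Z) (S : Side R x p q p' q' W) (f : ℤ → ℕ) :
    ∑ v ∈ Finset.Ioo x R, f v = ∑ y ∈ W, (f y + f (q y)) + ∑ v ∈ rest R x q W, f v := by
  have hL := C.hL
  have h1 : W ⊆ Finset.Ioo x R := fun y hy =>
    Finset.mem_Ioo.2 ⟨(S.win y hy).1, (S.win y hy).2.1⟩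
  have h2 : W.image q ⊆ Finset.Ioo x R \ W := by
    intro z hz
    obtain ⟨y, hy, rfl⟩ := Finset.mem_image.1 hz
    obtain ⟨a1, a2, a3, a4, a5, -⟩ := S.win y hy
    have p1 := C.lam.pl y (by omega) a2
    exact Finset.mem_sdiff.2 ⟨Finset.mem_Ioo.2 ⟨by omega, a4⟩, a5⟩
  rw [← Finset.sum_sdiff h1, ← Finset.sum_sdiff h2, Finset.sum_image (C.q_inj S),
    Finset.sum_add_distrib]
  unfold rest
  omega

open Classical in
theorem Cx.sumB (C : Cx V L R x p q Z) (A : Age L R p q aL aR) (S : Side R x p q p' q' W) :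
    ∑ v ∈ Finset.Ioo x R, pot V x R (p' v) (q' v) (min (cls L p aL v) 3) (newR W aR v) v
      + ((Finset.Ioo x R).filter (fun v => p v ≤ x)).card
    ≤ ∑ v ∈ Finset.Ioo x R, pre V L R x p q aL aR v
      + 21 * ((rest R x q W).filter (fun v => p v = L)).card + 3770 + 256 * Z := by
  have hL := C.hL
  rw [Finset.card_filter, ← Finset.sum_add_distrib, C.sum_split S, C.sum_split S]
  have h1 := Finset.sum_le_sum (s := W) (fun y hy => C.pairB A S hy)
  have h2 := Finset.sum_le_sum (s := rest R x q W) (fun v hv =>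
    C.restB A S (mem_rest.1 hv).1 (mem_rest.1 hv).2.1 (mem_rest.1 hv).2.2.1 (mem_rest.1 hv).2.2.2)
  have h3 : ∑ y ∈ W, ((pot V x R (p' y) (q' y) (min (cls L p aL y) 3) (newR W aR y) y
      + if p y ≤ x then 1 else 0)
      + (pot V x R (p' (q y)) (q' (q y)) (min (cls L p aL (q y)) 3) (newR W aR (q y)) (q y)
      + if p (q y) ≤ x then 1 else 0))
      ≤ ∑ y ∈ W, (pot V x R (p' y) (q' y) (min (cls L p aL y) 3) (newR W aR y) y
      + pot V x R (p' (q y)) (q' (q y)) (min (cls L p aL (q y)) 3) (newR W aR (q y)) (q y) + 2) :=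
    Finset.sum_le_sum (fun y _ => by split_ifs <;> omega)
  have h4 : ((rest R x q W).filter (fun v => p v ≤ x ∧ q v = R)).card ≤ 1 := by
    apply card_le_one_of_lt
    intro u hu v hv huv
    obtain ⟨hu1, hu2, hu3⟩ := Finset.mem_filter.1 hu
    obtain ⟨hv1, hv2, hv3⟩ := Finset.mem_filter.1 hv
    have a := mem_rest.1 hu1
    have b := mem_rest.1 hv1
    have l := C.lam.l1 v u (by omega) b.2.1 (by omega) huv
    omega
  have e1 := C.cntE1 S
  have e2 := C.cntE2 A S
  have e3 := C.cntE3 S
  have e4 := C.cntE4 S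
  simp only [Finset.sum_add_distrib, ← Finset.mul_sum, ← Finset.card_filter] at h1 h2 h3 ⊢
  linarith

theorem Cx.newAge (C : Cx V L R x p q Z) (A : Age L R p q aL aR) (S : Side R x p q p' q' W) :
    Age x R p' q' (fun v => min (cls L p aL v) 3) (newR W aR) := by
  have hL := C.hL
  refine ⟨fun v => min_le_right _ _, fun v => ?_, ?_, ?_⟩
  · have := A.bR v
    unfold newR
    split_ifs <;> omega
  · intro u v u1 huv v2 _ hv
    have hp : p v ≤ x := by
      by_cases h1 : v ∈ W
      · exact (S.win v h1).2.2.1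
      · by_cases h2 : ∀ y ∈ W, q y ≠ v
        · have := (S.oth v (by omega) v2 h1 h2).1
          omega
        · push Not at h2
          obtain ⟨y, hy, rfl⟩ := h2
          obtain ⟨a1, a2, a3, a4, a5, a6, a7, a8, a9⟩ := S.win y hy
          omega
    have := C.cls_mono A u1 huv.le v2 hp
    omega
  · intro u v u1 huv v2 hu hv
    have qq : ∀ w, x < w → w < R → w ∉ W → q' w = q w := by
      intro w w1 w2 h1
      by_cases h2 : ∀ y ∈ W, q y ≠ w
      · exact (S.oth w w1 w2 h1 h2).2
      · push Not at h2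
        obtain ⟨y, hy, rfl⟩ := h2
        exact (S.win y hy).2.2.2.2.2.2.2.2
    have b := A.bR v
    unfold newR
    by_cases h1 : u ∈ W
    · rw [if_pos h1]; split_ifs <;> omega
    · have e := qq u u1 (by omega) h1
      by_cases h2 : v ∈ W
      · have l := C.lam.l1 v u (by omega) v2 (by have := (S.win v h2).2.2.1; omega) huv
        omega
      · have e2 := qq v (by omega) v2 h2
        rw [if_neg h1, if_neg h2]
        exact A.mR u v (by omega) huv v2 (by omega) (by omega)

/-- total potential of the keys in `I`, seen inside the piece `(L, R)` -/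
noncomputable def phi (V : LV) (Z : ℕ) (L R : ℤ) (p q : ℤ → ℤ) (aL aR : ℤ → ℕ) (I : Finset ℤ) : ℕ :=
  ∑ v ∈ I, pot V L R (p v) (q v) (aL v) (aR v) v + ∑ c ∈ I ×ˢ Finset.range Z, bt V L R c

theorem Cx.sideR (C : Cx V L R x p q Z) (A : Age L R p q aL aR) (S : Side R x p q p' q' W) :
    ∃ aL' aR', Age x R p' q' aL' aR' ∧
      phi V Z x R p' q' aL' aR' (Finset.Ioo x R) + ((Finset.Ioo x R).filter (fun v => p v ≤ x)).card
      ≤ phi V Z L R p q aL aR (Finset.Ioo x R) + 21 * ((rest R x q W).filter (fun v => p v = L)).card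
        + 512 * (hi (ww V L R x) + 1) + 416 * Z + 3770 := by
  refine ⟨_, _, C.newAge A S, ?_⟩
  have h1 := C.sumA A
  have h2 := C.sumB A S
  unfold phi
  linarith

end

end Pool.Agent.Lib.MP_3ecc11_lc
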