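import Pool.Agent.Lib.MP_3ecc11_lc.Round

set_option autoImplicit false
set_option linter.unusedVariables false

namespace Pool.Agent.Lib.MP_3ecc11_lc

open BT

/-- splaying a list of keys, with its total cost -/
inductive Run : List ℤ → BT ℤ → BT ℤ → ℕ → Prop
  | nil (S : BT ℤ) : Run [] S S 0
  | cons (x : ℤ) (xs : List ℤ) (S S1 S' : BT ℤ) (c : ℕ) :
      Splay x S S1 → Run xs S1 S' c → Run (x :: xs) S S' (depth S x + 1 + c)

theorem Run.split : ∀ (xs ys : List ℤ) (S S' : BT ℤ) (c : ℕ), Run (xs ++ ys) S S' c →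
    ∃ S1 c1 c2, Run xs S S1 c1 ∧ Run ys S1 S' c2 ∧ c = c1 + c2
  | [], ys, S, S', c, h => ⟨S, 0, c, Run.nil S, h, by omega⟩
  | x :: xs, ys, S, S', c, h => by
    rw [List.cons_append] at h
    cases h with
    | cons _ _ _ S1 _ c h1 h2 =>
      obtain ⟨S2, c1, c2, g1, g2, g3⟩ := Run.split xs ys S1 S' c h2
      exact ⟨S2, _, c2, Run.cons x xs S S1 S2 c1 h1 g1, g2, by omega⟩

theorem Age.congr {L R : ℤ} {p q p' q' : ℤ → ℤ} {aL aR : ℤ → ℕ} (A : Age L R p q aL aR)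
    (h : ∀ v, L < v → v < R → p v = p' v ∧ q v = q' v) : Age L R p' q' aL aR := by
  refine ⟨A.bL, A.bR, fun u v h1 h2 h3 h4 h5 => ?_, fun u v h1 h2 h3 h4 h5 => ?_⟩
  · exact A.mL u v h1 h2 h3 (by rw [(h u h1 (by omega)).1, h4]) (by rw [(h v (by omega) h3).1, h5])
  · exact A.mR u v h1 h2 h3 (by rw [(h u h1 (by omega)).2, h4]) (by rw [(h v (by omega) h3).2, h5])

theorem Psi_succ (q : ℤ → ℤ) (x : ℤ) : Psi q x ≤ Psi q (x - 1) + 1 := by
  unfold Psi
  refine le_trans (Finset.card_le_card ?_) (Finset.card_insert_le x _)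
  intro v hv
  simp only [Finset.mem_insert, Finset.mem_filter, Finset.mem_Ioc] at hv ⊢
  omega

theorem Th_zero (p : ℤ → ℤ) (a u v : ℤ) (h : ∀ w, u < w → w < v → a ≤ p w) : Th p a u v = 0 := by
  unfold Th
  rw [Finset.card_eq_zero, Finset.filter_eq_empty_iff]
  intro w hw
  have := h w (Finset.mem_Ioo.1 hw).1 (Finset.mem_Ioo.1 hw).2
  omega

theorem trav (V : LV) (Z : ℕ) (N : ℤ) (pos : ∀ u v, 0 ≤ u → u < v → 1 ≤ V.lev u v)
    (zlt : ∀ u v, u ≤ v → v ≤ N → zn (V.lev u v) < Z) :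
    ∀ (T : BT ℤ) (a b : ℤ), Full a b T → 0 ≤ a → b ≤ N → ∀ (S S' : BT ℤ) (c : ℕ) (aL aR : ℤ → ℕ),
      Full 0 N S → Run (preord T) S S' c → (∀ v, b < v → v < N → b ≤ pb S 0 v) →
      Age a b (pJ a (pb S 0)) (qJ b (qb S N)) aL aR →
      Full 0 N S' ∧ (∀ v, b < v → v < N → pb S' 0 v = pb S 0 v ∧ qb S' N v = qb S N v) ∧
      c + 44 * Psi (qb S' N) (b - 1) ≤ Phi V Z a b (pJ a (pb S 0)) (qJ b (qb S N)) aL aR
        + 44 * Psi (qb S N) a + 22 * Th (pb S 0) a a b + (832 * Z + 7843) * (preord T).length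
  | nil, a, b, hT, a0, bN, S, S', c, aL, aR, hS, hR, inv, A => by
    unfold Full at hT
    unfold preord at hR
    cases hR
    refine ⟨hS, fun _ _ _ => ⟨rfl, rfl⟩, ?_⟩
    rw [show b - 1 = a by omega]
    omega
  | node l x r, a, b, hT, a0, bN, S, S', c, aL, aR, hS, hR, inv, A => by
    have ax := hT.1.lt
    have xb := hT.2.lt
    unfold preord at hR
    cases hR with
    | cons _ _ _ S1 _ c h1 h2 =>
      obtain ⟨S2, c1, c2, g1, g2, rfl⟩ := Run.split _ _ _ _ _ h2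
      obtain ⟨f1, x1, x2, WR, WL, UR, m, f, sp⟩ := h1.sp hS
      have H : Rd N a x b _ _ _ _ WR WL UR m f := ⟨a0, ax, xb, bN, hS.lam, inv, sp⟩
      obtain ⟨a1, b1, a2, b2, A1, A2, k⟩ := H.round V Z pos zlt A
      obtain ⟨af1, af2⟩ := H.after
      have dl := hS.depth_le x x1 x2
      obtain ⟨f2, u1, i1⟩ := trav V Z N pos zlt l a x hT.1 a0 (by omega) S1 S2 c1 a1 b1 f1 g1 af1 A1
      have cg : ∀ v, x < v → v < b → pJ x (pb S1 0) v = pJ x (pb S2 0) v ∧
          qJ b (qb S1 N) v = qJ b (qb S2 N) v := by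
        intro v v1 v2
        have := u1 v v1 (by omega)
        unfold pJ qJ
        rw [this.1, this.2]
        exact ⟨rfl, rfl⟩
      obtain ⟨f3, u2, i2⟩ := trav V Z N pos zlt r x b hT.2 (by omega) bN S2 S' c2 a2 b2 f2 g2
        (fun v v1 v2 => by
          rw [(u1 v (by omega) v2).1, (af2 v v1 v2).1]
          exact inv v v1 v2) (A2.congr cg)
      refine ⟨f3, fun v v1 v2 => ?_, ?_⟩
      · have e1 := u2 v v1 v2
        have e2 := u1 v (by omega) v2
        have e3 := af2 v v1 v2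
        omega
      · rw [← phi_congr V Z x b _ _ _ _ a2 b2 cg, Th_zero (pb S2 0) x x b (fun w w1 w2 => by
          rw [(u1 w w1 (by omega)).1]
          exact af1 w w1 (by omega))] at i2
        have ps := Psi_succ (qb S2 N) x
        have e : (832 * Z + 7843) * (preord (node l x r)).length
            = (832 * Z + 7843) * (preord l).length + (832 * Z + 7843) * (preord r).length
              + (832 * Z + 7843) := by
          simp only [preord, List.length_cons, List.length_append]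
          ring
        rw [e]
        omega

theorem rep_count (n s : ℕ) :
    ((Finset.Ioo (0 : ℤ) (n + 1)).filter (fun v => (2 : ℤ) ^ s ∣ v)).card * (2 ^ s + 1) ≤ 2 * n := by
  have hp : (0 : ℤ) < 2 ^ s := by positivity
  have hq : 0 < 2 ^ s := by positivity
  have h1 := card_le_of_lt_ne ((Finset.Ioo (0 : ℤ) (n + 1)).filter (fun v => (2 : ℤ) ^ s ∣ v))
    (Finset.Ioc (0 : ℤ) ((n / 2 ^ s : ℕ) : ℤ)) (fun v => v / 2 ^ s) (by
      intro v hv
      rw [Finset.mem_filter, Finset.mem_Ioo] at hv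
      obtain ⟨⟨v1, v2⟩, k, rfl⟩ := hv
      rw [Finset.mem_Ioc, Int.mul_ediv_cancel_left _ hp.ne']
      refine ⟨(pos_iff_pos_of_mul_pos v1).1 hp, ?_⟩
      push_cast
      rw [Int.le_ediv_iff_mul_le hp]
      linarith) (by
      intro u hu v hv huv e
      obtain ⟨k, rfl⟩ := (Finset.mem_filter.1 hu).2
      obtain ⟨k', rfl⟩ := (Finset.mem_filter.1 hv).2
      rw [Int.mul_ediv_cancel_left _ hp.ne', Int.mul_ediv_cancel_left _ hp.ne'] at e
      rw [e] at huv
      exact lt_irrefl _ huv)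
  rw [Int.card_Ioc, sub_zero, Int.toNat_natCast] at h1
  have h2 := Nat.div_mul_le_self n (2 ^ s)
  have h3 : n / 2 ^ s ≤ n := Nat.div_le_self _ _
  calc _ ≤ n / 2 ^ s * (2 ^ s + 1) := Nat.mul_le_mul_right _ h1
    _ ≤ 2 * n := by rw [Nat.mul_add]; omega

theorem init_le (Z n : ℕ) (p q : ℤ → ℤ) (aL aR : ℤ → ℕ)
    (zlt : ∀ u v, u ≤ v → v ≤ (n : ℤ) + 1 → zn (dy.lev u v) < Z) :
    Phi dy Z 0 (n + 1) p q aL aR ≤ (2120 * Z + 289) * n := by
  have h1 : ∑ v ∈ Finset.Ioo (0 : ℤ) (n + 1), pot dy 0 (n + 1) (p v) (q v) (aL v) (aR v) v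
      ≤ ∑ v ∈ Finset.Ioo (0 : ℤ) (n + 1), (8 * Z + 289) := by
    apply Finset.sum_le_sum
    intro v hv
    rw [Finset.mem_Ioo] at hv
    have a1 := pot_le dy 0 (n + 1) (p v) (q v) (aL v) (aR v) v
    have a2 : zn (ww dy 0 (n + 1) v) ≤ zn (dy.lev 0 v) := zn_mono (min_le_left _ _)
    have a3 := zlt 0 v hv.1.le hv.2.le
    omega
  rw [Finset.sum_const, Int.card_Ioo, smul_eq_mul] at h1
  have e : ((n : ℤ) + 1 - 0 - 1).toNat = n := by omega
  rw [e] at h1
  have h2 : ∑ c ∈ Finset.Ioo (0 : ℤ) (n + 1) ×ˢ Finset.range Z, (bt dy 0 (n + 1) c + rc dy 0 (n + 1) c)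
      ≤ ∑ i ∈ Finset.range Z, 2112 * n := by
    rw [Finset.sum_product_right]
    apply Finset.sum_le_sum
    intro i _
    have a1 : ∑ v ∈ Finset.Ioo (0 : ℤ) (n + 1), (bt dy 0 (n + 1) (v, i) + rc dy 0 (n + 1) (v, i))
        ≤ ∑ v ∈ Finset.Ioo (0 : ℤ) (n + 1),
          (if (2 : ℤ) ^ tw i ∣ v then 1 else 0) * (1056 * (2 ^ tw i + 1)) := by
      apply Finset.sum_le_sum
      intro v _
      have e : tw (i + 1) = 2 ^ tw i := rfl
      unfold bt rc
      by_cases g : dy.Rep i v ∧ tw i < ww dy 0 (n + 1) v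
      · rw [if_pos g, if_pos g, if_pos (show (2 : ℤ) ^ tw i ∣ v from g.1)]
        dsimp only
        rw [e]
        omega
      · rw [if_neg g, if_neg g]
        omega
    rw [← Finset.sum_mul, ← Finset.card_filter] at a1
    have a2 := rep_count n (tw i)
    calc _ ≤ _ := a1
      _ = 1056 * (((Finset.Ioo (0 : ℤ) (n + 1)).filter (fun v => (2 : ℤ) ^ tw i ∣ v)).card
          * (2 ^ tw i + 1)) := by ring
      _ ≤ 2112 * n := by omega
  rw [Finset.sum_const, Finset.card_range, smul_eq_mul, Finset.sum_add_distrib] at h2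
  unfold Phi phi
  nlinarith

theorem lt_tw (n : ℕ) : n < tw (logStar n + 2) := by
  induction n using Nat.strong_induction_on with
  | _ n ih =>
    rw [logStar]
    split_ifs with h
    · show n < 2
      omega
    · have h1 := ih (Nat.log 2 n) (Nat.log_lt_self 2 (by omega))
      have h2 : n < 2 ^ (Nat.log 2 n + 1) := Nat.lt_pow_succ_log_self (by norm_num) n
      calc n < 2 ^ (Nat.log 2 n + 1) := h2
        _ ≤ 2 ^ tw (logStar (Nat.log 2 n) + 2) := Nat.pow_le_pow_right (by norm_num) h1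
        _ = _ := rfl

theorem run_le (n : ℕ) (T S S' : BT ℤ) (c : ℕ) (hT : Full 0 (n + 1) T) (hS : Full 0 (n + 1) S)
    (hn : (preord T).length = n) (hR : Run (preord T) S S' c) :
    c ≤ 14036 * n * (logStar n + 1) := by
  have zlt : ∀ u v, u ≤ v → v ≤ (n : ℤ) + 1 → zn (dy.lev u v) < logStar n + 2 := by
    intro u v h1 h2
    apply zn_lt_of_le
    have a1 := lt_tw n
    have a2 : tw (logStar n + 2) < 2 ^ tw (logStar n + 2) := Nat.lt_two_pow_self
    have e : ((2 ^ tw (logStar n + 2) : ℕ) : ℤ) = 2 ^ tw (logStar n + 2) := by push_cast; rfl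
    show dy.lev u v ≤ tw (logStar n + 2)
    apply dy_le <;> omega
  obtain ⟨-, -, h⟩ := trav dy (logStar n + 2) (n + 1) dy_pos zlt T 0 (n + 1) hT le_rfl le_rfl S S' c
    (fun _ => 0) (fun _ => 0) hS hR (fun v v1 v2 => by omega)
    ⟨fun _ => by omega, fun _ => by omega, fun _ _ _ _ _ _ _ => le_rfl, fun _ _ _ _ _ _ _ => le_rfl⟩
  have h1 := init_le (logStar n + 2) n (pJ 0 (pb S 0)) (qJ (n + 1) (qb S (n + 1))) (fun _ => 0)
    (fun _ => 0) zlt
  have h2 : Psi (qb S (n + 1)) 0 = 0 := by simp [Psi]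
  have h3 := Th_zero (pb S 0) 0 0 (n + 1) (fun w w1 w2 => (hS.lam.pl w w1 w2).1)
  rw [h2, h3, hn] at h
  nlinarith [Nat.zero_le (n * logStar n)]

end Pool.Agent.Lib.MP_3ecc11_lc
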