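import Pool.Agent.Lib.MP_3ecc11_lc.Defs
import Pool.Agent.Lib.MP_3ecc11_lc.Count

set_option autoImplicit false
set_option linter.unusedVariables false

namespace Pool.Agent.Lib.MP_3ecc11_lc

open BT

/-- nearest smaller ancestor -/
def pb : BT ℤ → ℤ → ℤ → ℤ
  | nil, lo, _ => lo
  | node l a r, lo, v => if v = a then lo else if v < a then pb l lo v else pb r a v

/-- nearest greater ancestor -/
def qb : BT ℤ → ℤ → ℤ → ℤ
  | nil, hi, _ => hi
  | node l a r, hi, v => if v = a then hi else if v < a then qb l a v else qb r hi v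

/-- search tree on exactly the integers strictly between the bounds -/
def Full : ℤ → ℤ → BT ℤ → Prop
  | lo, hi, nil => hi = lo + 1
  | lo, hi, node l a r => Full lo a l ∧ Full a hi r

theorem Full.lt : ∀ {t : BT ℤ} {lo hi : ℤ}, Full lo hi t → lo < hi
  | nil, lo, hi, h => by unfold Full at h; omega
  | node l a r, lo, hi, h => lt_trans (Full.lt h.1) (Full.lt h.2)

section
variable {l r : BT ℤ} {a b v : ℤ}

theorem pb_lt (h : v < a) : pb (node l a r) b v = pb l b v := by
  rw [pb, if_neg (by omega), if_pos h]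
theorem pb_gt (h : a < v) : pb (node l a r) b v = pb r a v := by
  rw [pb, if_neg (by omega), if_neg (by omega)]
theorem pb_eq : pb (node l a r) b a = b := by rw [pb, if_pos rfl]
theorem qb_lt (h : v < a) : qb (node l a r) b v = qb l a v := by
  rw [qb, if_neg (by omega), if_pos h]
theorem qb_gt (h : a < v) : qb (node l a r) b v = qb r b v := by
  rw [qb, if_neg (by omega), if_neg (by omega)]
theorem qb_eq : qb (node l a r) b a = b := by rw [qb, if_pos rfl]
theorem depth_lt (h : v < a) : depth (node l a r) v = depth l v + 1 := by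
  rw [depth, if_neg (by omega), if_pos h]
theorem depth_gt (h : a < v) : depth (node l a r) v = depth r v + 1 := by
  rw [depth, if_neg (by omega), if_neg (by omega)]
theorem depth_eq : depth (node l a r) a = 0 := by rw [depth, if_pos rfl]

end

theorem Full.lam : ∀ {t : BT ℤ} {lo hi : ℤ}, Full lo hi t → Lam lo hi (pb t lo) (qb t hi)
  | nil, lo, hi, h => by
    unfold Full at h
    refine ⟨?_, ?_, ?_, ?_, ?_⟩ <;> intros <;> omega
  | node l a r, lo, hi, h => by
    have h1 := Full.lam h.1
    have h2 := Full.lam h.2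
    have c1 := Full.lt h.1
    have c2 := Full.lt h.2
    refine ⟨fun v v1 v2 => ?_, fun v w v1 v2 w1 w2 => ?_, fun v w v1 v2 w1 w2 => ?_,
      fun v v1 v2 g => ?_, fun v v1 v2 g => ?_⟩
    · rcases lt_trichotomy v a with c | c | c
      · have := h1.pl v v1 c
        rw [pb_lt c, qb_lt c]; omega
      · subst c; rw [pb_eq, qb_eq]; omega
      · have := h2.pl v c v2
        rw [pb_gt c, qb_gt c]; omega
    · rcases lt_trichotomy v a with c | c | c
      · rw [pb_lt c] at w1
        rw [pb_lt c, pb_lt (by omega), qb_lt (by omega)]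
        exact h1.l1 v w v1 c w1 w2
      · subst c
        rw [pb_eq] at w1
        have := h1.pl w w1 w2
        rw [pb_eq, pb_lt w2, qb_lt w2]; omega
      · rw [pb_gt c] at w1
        have := h2.pl v c v2
        rw [pb_gt c, pb_gt (by omega), qb_gt (by omega)]
        exact h2.l1 v w c v2 w1 w2
    · rcases lt_trichotomy v a with c | c | c
      · rw [qb_lt c] at w2
        have := h1.pl v v1 c
        rw [qb_lt c, pb_lt (by omega), qb_lt (by omega)]
        exact h1.l2 v w v1 c w1 w2
      · subst c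
        rw [qb_eq] at w2
        have := h2.pl w w1 w2
        rw [qb_eq, pb_gt w1, qb_gt w1]; omega
      · rw [qb_gt c] at w2
        rw [qb_gt c, pb_gt (by omega), qb_gt (by omega)]
        exact h2.l2 v w c v2 w1 w2
    · rcases lt_trichotomy v a with c | c | c
      · have p := h1.pl v v1 c
        rw [qb_lt c, pb_lt c]
        rcases eq_or_lt_of_le p.2.2.2 with e | e
        · rw [e, pb_eq]; omega
        · rw [pb_lt e]; exact h1.l3 v v1 c e
      · subst c; rw [qb_eq] at g; omega
      · have p := h2.pl v c v2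
        rw [qb_gt c] at g
        rw [qb_gt c, pb_gt c, pb_gt (by omega)]
        exact h2.l3 v c v2 g
    · rcases lt_trichotomy v a with c | c | c
      · have p := h1.pl v v1 c
        rw [pb_lt c] at g
        rw [qb_lt c, pb_lt c, qb_lt (by omega)]
        exact h1.l4 v v1 c g
      · subst c; rw [pb_eq] at g; omega
      · have p := h2.pl v c v2
        rw [qb_gt c, pb_gt c]
        rcases eq_or_lt_of_le p.1 with e | e
        · rw [← e, qb_eq]; omega
        · rw [qb_gt e]; exact h2.l4 v c v2 e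

theorem Full.depth_le : ∀ {t : BT ℤ} {lo hi : ℤ}, Full lo hi t → ∀ x, lo < x → x < hi →
    depth t x ≤ ((Finset.Ioo lo hi).filter (fun v => v ≠ x ∧ pb t lo v < x ∧ x < qb t hi v)).card
  | nil, lo, hi, h, x, _, _ => by simp [depth]
  | node l a r, lo, hi, h, x, x1, x2 => by
    have c1 := Full.lt h.1
    have c2 := Full.lt h.2
    rcases lt_trichotomy x a with c | c | c
    · have ih := Full.depth_le h.1 x x1 c
      rw [depth_lt c]
      have hs : insert a ((Finset.Ioo lo a).filter (fun v => v ≠ x ∧ pb l lo v < x ∧ x < qb l a v))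
          ⊆ (Finset.Ioo lo hi).filter
            (fun v => v ≠ x ∧ pb (node l a r) lo v < x ∧ x < qb (node l a r) hi v) := by
        intro v hv
        rw [Finset.mem_insert, Finset.mem_filter, Finset.mem_Ioo] at hv
        rw [Finset.mem_filter, Finset.mem_Ioo]
        rcases hv with rfl | hv
        · rw [pb_eq, qb_eq]; omega
        · rw [pb_lt hv.1.2, qb_lt hv.1.2]; omega
      have := Finset.card_le_card hs
      rw [Finset.card_insert_of_notMem (by simp)] at this
      omega
    · subst c; rw [depth_eq]; omega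
    · have ih := Full.depth_le h.2 x c x2
      rw [depth_gt c]
      have hs : insert a ((Finset.Ioo a hi).filter (fun v => v ≠ x ∧ pb r a v < x ∧ x < qb r hi v))
          ⊆ (Finset.Ioo lo hi).filter
            (fun v => v ≠ x ∧ pb (node l a r) lo v < x ∧ x < qb (node l a r) hi v) := by
        intro v hv
        rw [Finset.mem_insert, Finset.mem_filter, Finset.mem_Ioo] at hv
        rw [Finset.mem_filter, Finset.mem_Ioo]
        rcases hv with rfl | hv
        · rw [pb_eq, qb_eq]; omega
        · rw [pb_gt hv.1.1, qb_gt hv.1.1]; omega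
      have := Finset.card_le_card hs
      rw [Finset.card_insert_of_notMem (by simp)] at this
      omega

/-- effect of one double step on the ancestor functions -/
def St (x lo hi : ℤ) (p q p1 q1 : ℤ → ℤ) : Prop :=
  ∃ y z, lo < y ∧ y < hi ∧ lo < z ∧ z < hi ∧
    (∀ v, lo < v → v < hi → v ≠ x → v ≠ y → v ≠ z → p1 v = p v ∧ q1 v = q v) ∧
    ((x < y ∧ y < z ∧ q y = z ∧ p y = p x ∧ p z = p x ∧ p1 x = p x ∧ q1 x = q z ∧ p1 y = x ∧
        q1 y = q z ∧ p1 z = y ∧ q1 z = q z) ∨
     (y < x ∧ z < y ∧ p y = z ∧ q y = q x ∧ q z = q x ∧ q1 x = q x ∧ p1 x = p z ∧ q1 y = x ∧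
        p1 y = p z ∧ q1 z = y ∧ p1 z = p z) ∨
     (y < x ∧ x < z ∧ p1 x = p y ∧ q1 x = q z ∧ p1 y = p y ∧ q1 y = x ∧ p1 z = x ∧ q1 z = q z ∧
        ((q y = z ∧ p z = p y) ∨ (p z = y ∧ q y = q z))))

theorem Dbl.st {x : ℤ} {S S1 : BT ℤ} (h : Dbl x S S1) : ∀ lo hi, Full lo hi S →
    Full lo hi S1 ∧ lo < x ∧ x < hi ∧ St x lo hi (pb S lo) (qb S hi) (pb S1 lo) (qb S1 hi) := by
  induction h with
  | zigzigL A B C D a b =>
    rintro lo hi ⟨⟨⟨f1, f2⟩, f3⟩, f4⟩
    have c1 := f1.lt
    have c2 := f2.lt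
    have c3 := f3.lt
    have c4 := f4.lt
    refine ⟨⟨f1, f2, f3, f4⟩, by omega, by omega, b, a, by omega, by omega, by omega, by omega,
      fun v _ _ _ _ _ => ?_, Or.inl ?_⟩
    · simp only [pb, qb]
      split_ifs <;> omega
    · simp only [pb, qb]
      split_ifs <;> omega
  | zigzigR A B C D a b =>
    rintro lo hi ⟨f1, f2, f3, f4⟩
    have c1 := f1.lt
    have c2 := f2.lt
    have c3 := f3.lt
    have c4 := f4.lt
    refine ⟨⟨⟨⟨f1, f2⟩, f3⟩, f4⟩, by omega, by omega, b, a, by omega, by omega, by omega, by omega,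
      fun v _ _ _ _ _ => ?_, Or.inr (Or.inl ?_)⟩
    · simp only [pb, qb]
      split_ifs <;> omega
    · simp only [pb, qb]
      split_ifs <;> omega
  | zigzagL A B C D a b =>
    rintro lo hi ⟨⟨f1, f2, f3⟩, f4⟩
    have c1 := f1.lt
    have c2 := f2.lt
    have c3 := f3.lt
    have c4 := f4.lt
    refine ⟨⟨⟨f1, f2⟩, f3, f4⟩, by omega, by omega, b, a, by omega, by omega, by omega, by omega,
      fun v _ _ _ _ _ => ?_, Or.inr (Or.inr ?_)⟩
    · simp only [pb, qb]
      split_ifs <;> omega
    · simp only [pb, qb]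
      split_ifs <;> omega
  | zigzagR A B C D a b =>
    rintro lo hi ⟨f1, ⟨f2, f3⟩, f4⟩
    have c1 := f1.lt
    have c2 := f2.lt
    have c3 := f3.lt
    have c4 := f4.lt
    refine ⟨⟨⟨f1, f2⟩, f3, f4⟩, by omega, by omega, a, b, by omega, by omega, by omega, by omega,
      fun v _ _ _ _ _ => ?_, Or.inr (Or.inr ?_)⟩
    · simp only [pb, qb]
      split_ifs <;> omega
    · simp only [pb, qb]
      split_ifs <;> omega
  | left l l' r a _ ih =>
    rintro lo hi ⟨f1, f2⟩
    have c2 := f2.lt
    obtain ⟨g1, g2, g3, y, z, y1, y2, z1, z2, s, t⟩ := ih lo a f1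
    refine ⟨⟨g1, f2⟩, g2, by omega, y, z, y1, by omega, z1, by omega, fun v v1 v2 n1 n2 n3 => ?_, ?_⟩
    · rcases lt_trichotomy v a with c | c | c
      · simp only [pb_lt c, qb_lt c]
        exact s v v1 c n1 n2 n3
      · subst c; simp only [pb_eq, qb_eq, and_self]
      · simp only [pb_gt c, qb_gt c, and_self]
    · simp only [pb_lt g3, qb_lt g3, pb_lt y2, qb_lt y2, pb_lt z2, qb_lt z2]
      exact t
  | right l r r' a _ ih =>
    rintro lo hi ⟨f1, f2⟩
    have c1 := f1.lt
    obtain ⟨g1, g2, g3, y, z, y1, y2, z1, z2, s, t⟩ := ih a hi f2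
    refine ⟨⟨f1, g1⟩, by omega, g3, y, z, by omega, y2, by omega, z2, fun v v1 v2 n1 n2 n3 => ?_, ?_⟩
    · rcases lt_trichotomy v a with c | c | c
      · simp only [pb_lt c, qb_lt c, and_self]
      · subst c; simp only [pb_eq, qb_eq, and_self]
      · simp only [pb_gt c, qb_gt c]
        exact s v c v2 n1 n2 n3
    · simp only [pb_gt g2, qb_gt g2, pb_gt y1, qb_gt y1, pb_gt z1, qb_gt z1]
      exact t

end Pool.Agent.Lib.MP_3ecc11_lc
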