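import Mathlib

set_option autoImplicit false

namespace Pool.Agent.Lib.MP_3ecc11_lc

/-- tower function -/
def tw : ℕ → ℕ
  | 0 => 0
  | i + 1 => 2 ^ tw i

theorem tw_lt_succ (i : ℕ) : tw i < tw (i + 1) := by
  show tw i < 2 ^ tw i
  exact Nat.lt_two_pow_self

theorem tw_strictMono : StrictMono tw := strictMono_nat_of_lt_succ tw_lt_succ

theorem tw_mono {i j : ℕ} (h : i ≤ j) : tw i ≤ tw j := tw_strictMono.monotone h

theorem tw_ge (i : ℕ) : i ≤ tw i := tw_strictMono.le_apply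

theorem zn_ex (k : ℕ) : ∃ i, k ≤ tw (i + 1) := ⟨k, le_trans (Nat.le_succ k) (tw_ge _)⟩

/-- zone of a level -/
def zn (k : ℕ) : ℕ := Nat.find (zn_ex k)

def lo (k : ℕ) : ℕ := tw (zn k)
def hi (k : ℕ) : ℕ := tw (zn k + 1)

theorem le_hi (k : ℕ) : k ≤ hi k := Nat.find_spec (zn_ex k)

theorem zn_le {k i : ℕ} (h : k ≤ tw (i + 1)) : zn k ≤ i := Nat.find_min' (zn_ex k) h

theorem lo_lt {k : ℕ} (h : 1 ≤ k) : lo k < k := by
  unfold lo
  rcases hz : zn k with _ | j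
  · show 0 < k
    omega
  · by_contra hc
    have := zn_le (k := k) (i := j) (by omega)
    omega

theorem zn_mono {a b : ℕ} (h : a ≤ b) : zn a ≤ zn b := zn_le (le_trans h (le_hi b))

theorem zn_lt {a b : ℕ} (h : hi a < b) : zn a < zn b := by
  by_contra hc
  have h1 : tw (zn b + 1) ≤ tw (zn a + 1) := tw_mono (by omega)
  have := le_hi b
  unfold hi at *
  omega

theorem zn_ge {a b : ℕ} (h : lo a < b) : zn a ≤ zn b := by
  by_contra hc
  have h1 : tw (zn b + 1) ≤ tw (zn a) := tw_mono (by omega)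
  have := le_hi b
  unfold hi lo at *
  omega

theorem zn_eq {a b : ℕ} (h1 : lo a < b) (h2 : b ≤ hi a) : zn b = zn a :=
  le_antisymm (zn_le h2) (zn_ge h1)

theorem lo_eq {a b : ℕ} (h1 : lo a < b) (h2 : b ≤ hi a) : lo b = lo a := by
  unfold lo; rw [zn_eq h1 h2]

theorem hi_mono {a b : ℕ} (h : zn a ≤ zn b) : hi a ≤ hi b := tw_mono (by omega)

theorem zn_lt_of_le {k Z : ℕ} (h : k ≤ tw (Z + 1)) : zn k < Z + 1 := Nat.lt_succ_of_le (zn_le h)

/-- abstract dyadic level structure on the integers -/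
structure LV where
  lev : ℤ → ℤ → ℕ
  Rep : ℕ → ℤ → Prop
  sym : ∀ u v, lev u v = lev v u
  self : ∀ u, lev u u = 0
  betw : ∀ u v w, u ≤ v → v ≤ w → lev u w = max (lev u v) (lev v w)
  mid : ∀ u v u' v' k, u ≤ v → v ≤ u' → u' ≤ v' → lev u v = k → lev u' v' = k → 1 ≤ k →
    k < lev u v'
  rep : ∀ i g, ∃ r, Rep i r ∧ lev r g ≤ tw i

def LV.refl (V : LV) : LV where
  lev u v := V.lev (-u) (-v)
  Rep i v := V.Rep i (-v)
  sym u v := V.sym _ _
  self u := V.self _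
  betw u v w h1 h2 := by
    rw [V.sym (-u) (-w), V.betw (-w) (-v) (-u) (by omega) (by omega), V.sym (-u) (-v),
      V.sym (-v) (-w), max_comm]
  mid u v u' v' k h1 h2 h3 e1 e2 hk := by
    rw [V.sym]
    exact V.mid (-v') (-u') (-v) (-u) k (by omega) (by omega) (by omega)
      (by rw [V.sym]; exact e2) (by rw [V.sym]; exact e1) hk
  rep i g := by
    obtain ⟨r, h1, h2⟩ := V.rep i (-g)
    exact ⟨-r, by simpa using h1, by simpa using h2⟩

theorem levN_ex (u v : ℕ) : ∃ k, u / 2 ^ k = v / 2 ^ k := by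
  refine ⟨u + v, ?_⟩
  have h : u + v < 2 ^ (u + v) := Nat.lt_two_pow_self
  rw [Nat.div_eq_of_lt (by omega), Nat.div_eq_of_lt (by omega)]

def levN (u v : ℕ) : ℕ := Nat.find (levN_ex u v)

theorem levN_le_iff (u v k : ℕ) : levN u v ≤ k ↔ u / 2 ^ k = v / 2 ^ k := by
  constructor
  · intro h
    obtain ⟨d, rfl⟩ := Nat.exists_eq_add_of_le h
    have h0 : u / 2 ^ levN u v = v / 2 ^ levN u v := Nat.find_spec (levN_ex u v)
    rw [pow_add, ← Nat.div_div_eq_div_mul, ← Nat.div_div_eq_div_mul, h0]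
  · intro h
    exact Nat.find_min' (levN_ex u v) h

theorem levN_sym (u v : ℕ) : levN u v = levN v u := by
  apply le_antisymm
  · rw [levN_le_iff]; exact ((levN_le_iff v u _).1 le_rfl).symm
  · rw [levN_le_iff]; exact ((levN_le_iff u v _).1 le_rfl).symm

theorem levN_betw (u v w : ℕ) (h1 : u ≤ v) (h2 : v ≤ w) :
    levN u w = max (levN u v) (levN v w) := by
  apply le_antisymm
  · rw [levN_le_iff]
    exact ((levN_le_iff u v _).1 (le_max_left _ _)).trans ((levN_le_iff v w _).1 (le_max_right _ _))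
  · have h0 := (levN_le_iff u w _).1 le_rfl
    have a1 : u / 2 ^ levN u w ≤ v / 2 ^ levN u w := Nat.div_le_div_right h1
    have a2 : v / 2 ^ levN u w ≤ w / 2 ^ levN u w := Nat.div_le_div_right h2
    apply max_le
    · rw [levN_le_iff]; omega
    · rw [levN_le_iff]; omega

theorem levN_mid (u v u' v' k : ℕ) (h1 : u ≤ v) (h2 : v ≤ u') (h3 : u' ≤ v')
    (e1 : levN u v = k) (e2 : levN u' v' = k) (hk : 1 ≤ k) : k < levN u v' := by
  obtain ⟨j, rfl⟩ : ∃ j, k = j + 1 := ⟨k - 1, by omega⟩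
  have n1 : ¬ (u / 2 ^ j = v / 2 ^ j) := by rw [← levN_le_iff]; omega
  have n2 : ¬ (u' / 2 ^ j = v' / 2 ^ j) := by rw [← levN_le_iff]; omega
  have a1 : u / 2 ^ j ≤ v / 2 ^ j := Nat.div_le_div_right h1
  have a2 : v / 2 ^ j ≤ u' / 2 ^ j := Nat.div_le_div_right h2
  have a3 : u' / 2 ^ j ≤ v' / 2 ^ j := Nat.div_le_div_right h3
  by_contra hc
  have := (levN_le_iff u v' (j + 1)).1 (by omega)
  rw [pow_succ, ← Nat.div_div_eq_div_mul, ← Nat.div_div_eq_div_mul] at this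
  omega

/-- the concrete dyadic level structure -/
def dy : LV where
  lev u v := levN u.toNat v.toNat
  Rep i v := (2 : ℤ) ^ tw i ∣ v
  sym u v := levN_sym _ _
  self u := by
    apply Nat.eq_zero_of_le_zero
    rw [levN_le_iff]
  betw u v w h1 h2 := levN_betw _ _ _ (by omega) (by omega)
  mid u v u' v' k h1 h2 h3 e1 e2 hk := levN_mid _ _ _ _ k (by omega) (by omega) (by omega) e1 e2 hk
  rep i g := by
    refine ⟨((g.toNat / 2 ^ tw i * 2 ^ tw i : ℕ) : ℤ), ?_, ?_⟩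
    · push_cast
      exact Dvd.intro_left _ rfl
    · rw [levN_le_iff, Int.toNat_natCast, Nat.mul_div_cancel _ (by positivity)]

theorem dy_pos (u v : ℤ) (h0 : 0 ≤ u) (h : u < v) : 1 ≤ dy.lev u v := by
  by_contra hc
  have := (levN_le_iff u.toNat v.toNat 0).1 (by show dy.lev u v ≤ 0; omega)
  simp only [pow_zero, Nat.div_one] at this
  omega

theorem dy_le (u v : ℤ) (k : ℕ) (hu : u < 2 ^ k) (hv : v < 2 ^ k) : dy.lev u v ≤ k := by
  show levN _ _ ≤ k
  have e : ((2 ^ k : ℕ) : ℤ) = 2 ^ k := by push_cast; rfl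
  have hp : 0 < 2 ^ k := by positivity
  rw [levN_le_iff, Nat.div_eq_of_lt (by omega), Nat.div_eq_of_lt (by omega)]

/-- counting by an order-injective map -/
theorem card_le_of_lt_ne {β : Type} (S : Finset ℤ) (T : Finset β) (f : ℤ → β)
    (h1 : ∀ v ∈ S, f v ∈ T) (h2 : ∀ u ∈ S, ∀ v ∈ S, u < v → f u ≠ f v) : S.card ≤ T.card := by
  apply Finset.card_le_card_of_injOn f (fun v hv => h1 v hv)
  intro u hu v hv e
  rcases lt_trichotomy u v with h | h | h
  · exact absurd e (h2 u hu v hv h)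
  · exact h
  · exact absurd e.symm (h2 v hv u hu h)

theorem card_le_one_of_lt (S : Finset ℤ) (h2 : ∀ u ∈ S, ∀ v ∈ S, ¬ u < v) : S.card ≤ 1 := by
  have := card_le_of_lt_ne S ({()} : Finset Unit) (fun _ => ()) (by simp)
    (fun u hu v hv h => absurd h (h2 u hu v hv))
  simpa using this

theorem sum_drop {β : Type} (J I : Finset β) (f g : β → ℕ) (c : ℕ) (hI : I ⊆ J)
    (h1 : ∀ v ∈ J, f v ≤ g v) (h2 : ∀ v ∈ I, f v + c ≤ g v) :
    ∑ v ∈ J, f v + c * I.card ≤ ∑ v ∈ J, g v := by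
  classical
  rw [← Finset.sum_sdiff hI, ← Finset.sum_sdiff hI (f := g)]
  have a1 : ∑ v ∈ J \ I, f v ≤ ∑ v ∈ J \ I, g v :=
    Finset.sum_le_sum (fun v hv => h1 v (Finset.mem_sdiff.1 hv).1)
  have a2 : ∑ v ∈ I, (f v + c) ≤ ∑ v ∈ I, g v := Finset.sum_le_sum h2
  rw [Finset.sum_add_distrib, Finset.sum_const, smul_eq_mul] at a2
  nlinarith

end Pool.Agent.Lib.MP_3ecc11_lc
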